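import Pool.Agent.U194.Block.Fill

set_option autoImplicit false

/-!
The covering theorem: a family of choices with rankings which serves all partial choices gives a
covering.
-/

namespace Pool.Agent.U194.Block

open Set Metric Filter Topology

variable {ι : Type*} [Fintype ι] [DecidableEq ι] {V : ι → Type*} [∀ j, NormedAddCommGroup (V j)]
  [∀ j, NormedSpace ℝ (V j)] [∀ j, ProperSpace (V j)] [∀ j, Nontrivial (V j)]

theorem cover_served {Q : ∀ j, V j → Set (V j)} {D : ∀ j, Finset (V j)}
    (hG : ∀ j, Rule (Q j) (D j)) {K : Set (∀ j, V j)} (hK : Convex ℝ K) (hKc : IsCompact K)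
    (hKi : (interior K).Nonempty)
    (hinv : ∀ x ∈ K, ∀ j, ∀ q ∈ Q j (x j), Function.update x j q ∈ K)
    {M : Type*} [Fintype M] (c : M → ∀ j, V j) (b : M → ι → ℕ)
    (hserve : ∀ (S : Finset ι) (c₀ : ∀ j, V j), (∀ j, c₀ j ∈ D j) → ∃ m, (∀ i ∈ S, c m i = c₀ i) ∧
      ∀ i ∈ S, ∀ j, j ∉ S → b m i < b m j) :
    ∃ T : Finset (∀ j, V j), T.card ≤ Fintype.card M ∧
      K ⊆ ⋃ t ∈ T, (fun x => t + x) '' interior K := by
  classical
  have hDne : ∀ j, (D j).Nonempty := by
    intro j
    obtain ⟨v, hv⟩ := exists_ne (0 : V j)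
    obtain ⟨w, hw, -⟩ := (hG j).ill v hv
    exact ⟨w, hw⟩
  -- `η`
  have h0 := zero_int hG hinv hKi
  obtain ⟨r, hr, hball⟩ := Metric.isOpen_iff.1 isOpen_interior 0 h0
  set η : ℝ := r / 2 with hηdef
  have hη : 0 < η := by positivity
  have hball' : ∀ z : ∀ j, V j, (∀ j, ‖z j‖ < 2 * η) → z ∈ interior K := by
    intro z hz
    apply hball
    rw [mem_ball, dist_pi_lt_iff hr]
    intro j
    rw [Pi.zero_apply, dist_zero_right]
    have := hz j
    rwa [hηdef, mul_div_cancel₀ _ (by norm_num : (2 : ℝ) ≠ 0)] at this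
  -- `R`
  obtain ⟨R, hR⟩ : ∃ R : ℝ, ∀ x ∈ K, ∀ j, ‖x j‖ ≤ R := by
    obtain ⟨R, hR⟩ := hKc.isBounded.exists_norm_le
    exact ⟨R, fun x hx j => (norm_le_pi_norm x j).trans (hR x hx)⟩
  -- `W`
  obtain ⟨W, hW0, hW⟩ : ∃ W : ℝ, 0 < W ∧ ∀ m j, ‖c m j‖ ≤ W := by
    refine ⟨1 + ∑ m, ‖c m‖, ?_, ?_⟩
    · have : 0 ≤ ∑ m, ‖c m‖ := Finset.sum_nonneg fun _ _ => norm_nonneg _
      linarith
    · intro m j
      have h1 := Finset.single_le_sum (f := fun m => ‖c m‖) (fun _ _ => norm_nonneg _)
        (Finset.mem_univ m)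
      have h2 := norm_le_pi_norm (c m) j
      linarith
  obtain ⟨κ, hκ, s0, hs0, hκs, hstep⟩ := step_all hG (η := η) (R := R) hη
  set a0 : ℝ := min s0 (η / W) with ha0def
  have ha0 : 0 < a0 := lt_min hs0 (by positivity)
  have ha0s : a0 ≤ s0 := min_le_left _ _
  have ha0W : a0 * W ≤ η := by
    have := min_le_right s0 (η / W)
    rw [← ha0def, le_div_iff₀ hW0] at this
    exact this
  set δ : ℝ := min 1 (κ * η / W) with hδdef
  have hδ0 : 0 < δ := lt_min one_pos (by positivity)
  have hδ1 : δ ≤ 1 := min_le_left _ _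
  have hδW : δ * W ≤ κ * η := by
    have := min_le_right 1 (κ * η / W)
    rw [← hδdef, le_div_iff₀ hW0] at this
    exact this
  set a : M → ι → ℝ := fun m j => a0 * δ ^ b m j with hadef
  have hapos : ∀ m j, 0 < a m j := fun m j => mul_pos ha0 (pow_pos hδ0 _)
  have haa0 : ∀ m j, a m j ≤ a0 := fun m j =>
    mul_le_of_le_one_right ha0.le (pow_le_one₀ hδ0.le hδ1)
  refine ⟨Finset.univ.image fun m => -(fun j => a m j • c m j), ?_, ?_⟩
  · exact Finset.card_image_le.trans (by simp)
  intro x hx
  -- the set of the coordinates which are not small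
  set S : Finset ι := Finset.univ.filter fun j => η ≤ ‖x j‖ with hSdef
  have hmemS : ∀ j, j ∈ S ↔ η ≤ ‖x j‖ := by
    intro j
    simp [hSdef]
  have hc₀ : ∀ j, ∃ w ∈ D j, j ∈ S → ∀ s : ℝ, 0 ≤ s → s ≤ s0 → ∀ l : ℝ, 0 ≤ l →
      l ≤ κ * s → ∃ p ∈ Q j (x j), x j + s • w = (1 - l) • p := by
    intro j
    by_cases hj : j ∈ S
    · obtain ⟨w, hw, hw'⟩ := hstep j (x j) ((hmemS j).1 hj) (hR x hx j)
      exact ⟨w, hw, fun _ => hw'⟩
    · obtain ⟨w, hw⟩ := hDne j
      exact ⟨w, hw, fun h => absurd h hj⟩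
  choose c₀ hc₀D hc₀ using hc₀
  obtain ⟨m, hm1, hm2⟩ := hserve S c₀ hc₀D
  have hy : x + (fun j => a m j • c m j) ∈ interior K := by
    rcases S.eq_empty_or_nonempty with hSe | hSne
    · apply hball'
      intro j
      have hj : ‖x j‖ < η := by
        by_contra hcon
        push Not at hcon
        have := (hmemS j).2 hcon
        rw [hSe] at this
        exact absurd this (Finset.notMem_empty j)
      have h1 : ‖a m j • c m j‖ ≤ η := by
        rw [norm_smul, Real.norm_eq_abs, abs_of_pos (hapos m j)]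
        exact (mul_le_mul (haa0 m j) (hW m j) (norm_nonneg _) ha0.le).trans ha0W
      have h2 := norm_add_le (x j) (a m j • c m j)
      show ‖x j + a m j • c m j‖ < 2 * η
      linarith
    · obtain ⟨i₀, hi₀, hmax⟩ := Finset.exists_max_image S (b m) hSne
      set A : ℝ := a m i₀ with hAdef
      have hA0 : 0 < A := hapos m i₀
      have hAS : ∀ j ∈ S, A ≤ a m j := by
        intro j hj
        exact mul_le_mul_of_nonneg_left (pow_le_pow_of_le_one hδ0.le hδ1 (hmax j hj)) ha0.le
      have hAc : ∀ j, j ∉ S → a m j ≤ δ * A := by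
        intro j hj
        have h1 := hm2 i₀ hi₀ j hj
        have h2 : δ ^ b m j ≤ δ ^ (b m i₀ + 1) := pow_le_pow_of_le_one hδ0.le hδ1 (by omega)
        calc a m j = a0 * δ ^ b m j := rfl
          _ ≤ a0 * δ ^ (b m i₀ + 1) := mul_le_mul_of_nonneg_left h2 ha0.le
          _ = δ * A := by rw [hAdef, hadef]; ring
      set l : ℝ := κ * A with hldef
      have hl0 : 0 < l := by positivity
      have hl1 : l < 1 := by
        refine lt_of_le_of_lt ?_ hκs
        exact mul_le_mul_of_nonneg_left ((haa0 m i₀).trans ha0s) hκ.le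
      have hq : ∀ j, ∃ q : V j, (j ∈ S → q ∈ Q j (x j) ∧ x j + a m j • c m j = (1 - l) • q) ∧
          (j ∉ S → q = x j) := by
        intro j
        by_cases hj : j ∈ S
        · obtain ⟨p, hp, hp'⟩ := hc₀ j hj (a m j) (hapos m j).le ((haa0 m j).trans ha0s) l hl0.le
            (mul_le_mul_of_nonneg_left (hAS j hj) hκ.le)
          refine ⟨p, fun _ => ⟨hp, ?_⟩, fun h => absurd hj h⟩
          rw [hm1 j hj]
          exact hp'
        · exact ⟨x j, fun h => absurd h hj, fun _ => rfl⟩
      choose q hq1 hq2 using hq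
      have hqK : q ∈ K := fill hinv S x hx q (fun j hj => (hq1 j hj).1) hq2
      set z : ∀ j, V j := fun j => if j ∈ S then 0 else x j + (a m j / l) • c m j with hzdef
      have hzK : z ∈ interior K := by
        apply hball'
        intro j
        by_cases hj : j ∈ S
        · simp only [hzdef, if_pos hj, norm_zero]
          linarith
        · simp only [hzdef, if_neg hj]
          have h1 : ‖x j‖ < η := by
            by_contra hcon
            push Not at hcon
            exact hj ((hmemS j).2 hcon)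
          have h2 : ‖(a m j / l) • c m j‖ ≤ η := by
            rw [norm_smul, Real.norm_eq_abs, abs_of_pos (div_pos (hapos m j) hl0)]
            have h3 : a m j / l ≤ δ / κ := by
              rw [div_le_div_iff₀ hl0 hκ, hldef]
              have := hAc j hj
              nlinarith
            calc a m j / l * ‖c m j‖ ≤ δ / κ * W :=
                  mul_le_mul h3 (hW m j) (norm_nonneg _) (by positivity)
              _ = δ * W / κ := by ring
              _ ≤ η := by
                  rw [div_le_iff₀ hκ]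
                  linarith
          have h3 := norm_add_le (x j) ((a m j / l) • c m j)
          linarith
      have h1 := hK.combo_self_interior_mem_interior hqK hzK (a := 1 - l) (b := l) (by linarith)
        hl0 (by ring)
      have h2 : (1 - l) • q + l • z = x + (fun j => a m j • c m j) := by
        funext j
        simp only [Pi.add_apply, Pi.smul_apply, hzdef]
        by_cases hj : j ∈ S
        · rw [if_pos hj, smul_zero, add_zero, (hq1 j hj).2]
        · rw [if_neg hj, hq2 j hj, smul_add, smul_smul, mul_div_cancel₀ _ hl0.ne', ← add_assoc,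
            ← add_smul, sub_add_cancel, one_smul]
      rwa [h2] at h1
  refine mem_iUnion₂.2 ⟨_, Finset.mem_image_of_mem _ (Finset.mem_univ m), _, hy, ?_⟩
  simp

end Pool.Agent.U194.Block
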