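import Mathlib

set_option autoImplicit false
set_option linter.unusedSectionVars false

/-!
Elementary symmetric sums of positive numbers: unimodality, and a flow between the levels of a
product of stars.
-/

namespace Pool.Agent.U194.Block

open Finset

variable {ι : Type*} [DecidableEq ι]

/-- the elementary symmetric sum -/
noncomputable def es (N : ι → ℝ) (s : Finset ι) (k : ℕ) : ℝ := ∑ U ∈ powersetCard k s, ∏ j ∈ U, N j

lemma es_zero (N : ι → ℝ) (s : Finset ι) : es N s 0 = 1 := by
  simp [es]

lemma es_nonneg {N : ι → ℝ} (hN : ∀ j, 0 ≤ N j) (s : Finset ι) (k : ℕ) : 0 ≤ es N s k :=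
  Finset.sum_nonneg fun _ _ => Finset.prod_nonneg fun j _ => hN j

lemma es_pos {N : ι → ℝ} (hN : ∀ j, 0 < N j) {s : Finset ι} {k : ℕ} (hk : k ≤ s.card) :
    0 < es N s k := by
  refine Finset.sum_pos (fun _ _ => Finset.prod_pos fun j _ => hN j) ?_
  rwa [Finset.powersetCard_nonempty]

lemma es_eq_zero {N : ι → ℝ} {s : Finset ι} {k : ℕ} (hk : s.card < k) : es N s k = 0 := by
  rw [es, Finset.powersetCard_eq_empty.2 hk, Finset.sum_empty]

lemma es_insert (N : ι → ℝ) {s : Finset ι} {a : ι} (ha : a ∉ s) (k : ℕ) :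
    es N (insert a s) (k + 1) = es N s (k + 1) + N a * es N s k := by
  unfold es
  rw [Finset.powersetCard_succ_insert ha, Finset.sum_union]
  · congr 1
    rw [Finset.sum_image, Finset.mul_sum]
    · refine Finset.sum_congr rfl fun U hU => ?_
      rw [Finset.prod_insert]
      exact fun h => ha ((Finset.mem_powersetCard.1 hU).1 h)
    · intro U hU U' hU' h
      have h1 : a ∉ U := fun h => ha ((Finset.mem_powersetCard.1 hU).1 h)
      have h2 : a ∉ U' := fun h => ha ((Finset.mem_powersetCard.1 hU').1 h)
      have h3 : (insert a U).erase a = (insert a U').erase a := by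
        show (insert a U).erase a = (insert a U').erase a
        have h' : insert a U = insert a U' := h
        rw [h']
      rwa [Finset.erase_insert h1, Finset.erase_insert h2] at h3
  · rw [Finset.disjoint_left]
    intro U hU hU'
    obtain ⟨U', _, rfl⟩ := Finset.mem_image.1 hU'
    exact ha ((Finset.mem_powersetCard.1 hU).1 (Finset.mem_insert_self a U'))

/-- log-concavity in the strong form -/
lemma es_lc {N : ι → ℝ} (hN : ∀ j, 0 ≤ N j) (s : Finset ι) :
    ∀ i j : ℕ, i ≤ j → es N s i * es N s (j + 2) ≤ es N s (i + 1) * es N s (j + 1) := by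
  induction s using Finset.induction_on with
  | empty =>
    intro i j _
    rw [es_eq_zero (N := N) (s := ∅) (k := j + 2) (by simp),
      es_eq_zero (N := N) (s := ∅) (k := i + 1) (by simp)]
    simp
  | insert a s ha ih =>
    intro i j hij
    have hx := hN a
    have h0 := es_nonneg hN s
    rw [es_insert N ha, es_insert N ha, es_insert N ha]
    cases i with
    | zero =>
      rw [es_zero]
      have h1 := ih 0 j hij
      rw [es_zero] at h1
      rw [es_zero]
      have h2 : 0 ≤ N a * (es N s (0 + 1) * es N s j) :=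
        mul_nonneg hx (mul_nonneg (h0 _) (h0 _))
      have h3 : 0 ≤ N a * N a * es N s j := mul_nonneg (mul_nonneg hx hx) (h0 _)
      nlinarith
    | succ i =>
      rw [es_insert N ha]
      have h1 := ih (i + 1) j hij
      have h2 := ih i j (by omega)
      have h3 : es N s (i + 1) * es N s (j + 1) ≤ es N s (i + 1 + 1) * es N s j := by
        rcases Nat.eq_or_lt_of_le hij with h | h
        · rw [← h, mul_comm]
        · obtain ⟨j', rfl⟩ : ∃ j', j = j' + 1 := ⟨j - 1, by omega⟩
          exact ih (i + 1) j' (by omega)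
      have h4 : es N s i * es N s (j + 1) ≤ es N s (i + 1) * es N s j := by
        obtain ⟨j', rfl⟩ : ∃ j', j = j' + 1 := ⟨j - 1, by omega⟩
        exact ih i j' (by omega)
      have h5 := mul_le_mul_of_nonneg_left (h2.trans h3) hx
      have h6 := mul_le_mul_of_nonneg_left h4 (mul_nonneg hx hx)
      nlinarith

/-- unimodality -/
lemma exists_mode {N : ι → ℝ} (hN : ∀ j, 0 < N j) (s : Finset ι) :
    ∃ m ≤ s.card, (∀ k < m, es N s k ≤ es N s (k + 1)) ∧
      ∀ k, m ≤ k → es N s (k + 1) ≤ es N s k := by
  classical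
  have hex : ∃ m, es N s (m + 1) ≤ es N s m := by
    refine ⟨s.card, ?_⟩
    rw [es_eq_zero (Nat.lt_succ_self _)]
    exact (es_pos hN le_rfl).le
  refine ⟨Nat.find hex, Nat.find_min' hex ?_, ?_, ?_⟩
  · rw [es_eq_zero (Nat.lt_succ_self _)]
    exact (es_pos hN le_rfl).le
  · intro k hk
    exact (not_le.1 (Nat.find_min hex hk)).le
  · intro k hk
    induction k, hk using Nat.le_induction with
    | base => exact Nat.find_spec hex
    | succ k _ ih =>
      rcases lt_or_ge s.card (k + 1 + 1) with h | h
      · rw [es_eq_zero h]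
        exact es_nonneg (fun j => (hN j).le) _ _
      · have h1 := es_lc (fun j => (hN j).le) s k k le_rfl
        have h2 : 0 < es N s (k + 1) := es_pos hN (by omega)
        have h3 : es N s (k + 1) * es N s (k + 1 + 1) ≤ es N s (k + 1) * es N s (k + 1) := by
          refine le_trans ?_ h1
          exact mul_le_mul_of_nonneg_right ih (es_nonneg (fun j => (hN j).le) _ _)
        exact le_of_mul_le_mul_left h3 h2

variable [Fintype ι]

/-- the flow -/
noncomputable def be (N : ι → ℝ) (k : ℕ) (S : Finset ι) (j : ι) : ℝ :=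
  ∑ U ∈ powersetCard k univ, if j ∉ U then (∏ i ∈ U, N i) / (1 + (U \ S).card) else 0

lemma be_nonneg {N : ι → ℝ} (hN : ∀ j, 0 ≤ N j) (k : ℕ) (S : Finset ι) (j : ι) : 0 ≤ be N k S j := by
  refine Finset.sum_nonneg fun U _ => ?_
  by_cases hj : j ∉ U
  · rw [if_pos hj]
    exact div_nonneg (Finset.prod_nonneg fun j _ => hN j) (by positivity)
  · rw [if_neg hj]

lemma be_col {N : ι → ℝ} {k : ℕ} {T : Finset ι} (hT : T.card = k + 1) :
    ∑ j ∈ T, be N k (T.erase j) j = es N univ k := by
  unfold be es
  rw [Finset.sum_comm]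
  refine Finset.sum_congr rfl fun U hU => ?_
  have hUc : U.card = k := (Finset.mem_powersetCard.1 hU).2
  have h1 : ∀ j ∈ T, (if j ∉ U then (∏ i ∈ U, N i) / (1 + ((U \ T.erase j).card : ℝ)) else 0) =
      if j ∉ U then (∏ i ∈ U, N i) / (1 + ((U \ T).card : ℝ)) else 0 := by
    intro j _
    by_cases hj : j ∉ U
    · rw [if_pos hj, if_pos hj]
      have : U \ T.erase j = U \ T := by
        ext i
        simp only [mem_sdiff, mem_erase, not_and]
        constructor
        · rintro ⟨h1, h2⟩
          refine ⟨h1, h2 ?_⟩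
          rintro rfl
          exact hj h1
        · rintro ⟨h1, h2⟩
          exact ⟨h1, fun _ => h2⟩
      rw [this]
    · rw [if_neg hj, if_neg hj]
  rw [Finset.sum_congr rfl h1, ← Finset.sum_filter, Finset.sum_const, nsmul_eq_mul]
  have h2 : (T.filter fun j => j ∉ U).card = 1 + (U \ T).card := by
    have e1 : (T.filter fun j => j ∉ U) = T \ U := by
      ext i
      simp [mem_sdiff]
    rw [e1]
    have e2 := Finset.card_sdiff_add_card_inter T U
    have e3 := Finset.card_sdiff_add_card_inter U T
    rw [Finset.inter_comm] at e3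
    omega
  rw [h2]
  push_cast
  field_simp

lemma be_row {N : ι → ℝ} {k : ℕ} {S : Finset ι} (hS : S.card = k) :
    ∑ j ∈ Sᶜ, N j * be N k S j = es N univ (k + 1) := by
  unfold be
  have h1 : ∀ T ∈ powersetCard (k + 1) (univ : Finset ι), ∏ j ∈ T, N j =
      ∑ j ∈ Sᶜ, if j ∈ T then (∏ i ∈ T, N i) / ((T \ S).card : ℝ) else 0 := by
    intro T hT
    have hTc : T.card = k + 1 := (Finset.mem_powersetCard.1 hT).2
    rw [← Finset.sum_filter, Finset.sum_const, nsmul_eq_mul]
    have e1 : (Sᶜ.filter fun j => j ∈ T) = T \ S := by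
      ext i
      simp [mem_sdiff, and_comm]
    rw [e1]
    have e2 : 0 < (T \ S).card := by
      rw [Finset.card_pos]
      by_contra hcon
      rw [Finset.not_nonempty_iff_eq_empty, Finset.sdiff_eq_empty_iff_subset] at hcon
      have := Finset.card_le_card hcon
      omega
    have e3 : ((T \ S).card : ℝ) ≠ 0 := by exact_mod_cast e2.ne'
    field_simp
  unfold es
  rw [Finset.sum_congr rfl h1, Finset.sum_comm]
  refine Finset.sum_congr rfl fun j hj => ?_
  have hjS : j ∉ S := Finset.mem_compl.1 hj
  rw [Finset.mul_sum]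
  rw [← Finset.sum_filter (s := powersetCard (k + 1) univ)]
  have h2 : ∑ U ∈ powersetCard k (univ : Finset ι), N j *
      (if j ∉ U then (∏ i ∈ U, N i) / (1 + ((U \ S).card : ℝ)) else 0) =
      ∑ U ∈ (powersetCard k (univ : Finset ι)).filter (fun U => j ∉ U),
        N j * ((∏ i ∈ U, N i) / (1 + ((U \ S).card : ℝ))) := by
    rw [Finset.sum_filter]
    refine Finset.sum_congr rfl fun U _ => ?_
    split_ifs <;> simp
  rw [h2]
  refine Finset.sum_bij' (fun U _ => insert j U) (fun T _ => T.erase j) ?_ ?_ ?_ ?_ ?_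
  · intro U hU
    obtain ⟨hU1, hU2⟩ := Finset.mem_filter.1 hU
    refine Finset.mem_filter.2 ⟨Finset.mem_powersetCard.2 ⟨Finset.subset_univ _, ?_⟩,
      Finset.mem_insert_self _ _⟩
    rw [Finset.card_insert_of_notMem hU2, (Finset.mem_powersetCard.1 hU1).2]
  · intro T hT
    obtain ⟨hT1, hT2⟩ := Finset.mem_filter.1 hT
    refine Finset.mem_filter.2 ⟨Finset.mem_powersetCard.2 ⟨Finset.subset_univ _, ?_⟩,
      Finset.notMem_erase _ _⟩
    rw [Finset.card_erase_of_mem hT2, (Finset.mem_powersetCard.1 hT1).2]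
    rfl
  · intro U hU
    exact Finset.erase_insert (Finset.mem_filter.1 hU).2
  · intro T hT
    exact Finset.insert_erase (Finset.mem_filter.1 hT).2
  · intro U hU
    have hU2 := (Finset.mem_filter.1 hU).2
    have e1 : (insert j U) \ S = insert j (U \ S) := by
      rw [Finset.insert_sdiff_of_notMem _ hjS]
    rw [Finset.prod_insert hU2, e1, Finset.card_insert_of_notMem (by simp [hU2])]
    push_cast
    rw [mul_div_assoc, add_comm (1 : ℝ)]

end Pool.Agent.U194.Block
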