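import Pool.Agent.U194.Block.Step

set_option autoImplicit false

/-!
Convex bodies in a product invariant under sets of contractions of the factors: they contain the
products of the orbit hulls; the origin is an interior point.
-/

namespace Pool.Agent.U194.Block

open Set Metric Filter Topology

variable {ι : Type*} [DecidableEq ι] {V : ι → Type*} [∀ j, NormedAddCommGroup (V j)]
  [∀ j, NormedSpace ℝ (V j)]

omit [∀ j, NormedSpace ℝ (V j)] in
lemma update_combo [∀ j, Module ℝ (V j)] (q : ∀ j, V j) (j : ι) (a b : ℝ) (hab : a + b = 1)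
    (y z : V j) : a • Function.update q j y + b • Function.update q j z =
      Function.update q j (a • y + b • z) := by
  funext i
  by_cases hi : i = j
  · subst hi
    simp
  · simp only [Pi.add_apply, Pi.smul_apply, Function.update_of_ne hi]
    rw [← add_smul, hab, one_smul]

/-- Invariance under the maps gives invariance under the rule. -/
lemma hull_inv {G : ∀ j, Set (V j → V j)} {K : Set (∀ j, V j)} (hK : Convex ℝ K) (hKc : IsClosed K)
    (hinv : ∀ x ∈ K, ∀ j, ∀ g ∈ G j, Function.update x j (g (x j)) ∈ K) :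
    ∀ x ∈ K, ∀ j, ∀ q ∈ P (G j) (x j), Function.update x j q ∈ K := by
  intro x hx j
  have h4 : P (G j) (x j) ⊆ {z | Function.update x j z ∈ K} := by
    refine P_subset ?_ ?_ ?_
    · intro y hy z hz a b ha hb hab
      have := hK hy hz ha hb hab
      rw [update_combo x j a b hab] at this
      exact this
    · exact hKc.preimage (continuous_const.update j continuous_id)
    · intro g hg
      exact hinv x hx j g hg
  exact h4

omit [∀ j, NormedSpace ℝ (V j)] in
lemma fill {Q : ∀ j, V j → Set (V j)} {K : Set (∀ j, V j)}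
    (hinv : ∀ x ∈ K, ∀ j, ∀ q ∈ Q j (x j), Function.update x j q ∈ K) (s : Finset ι) :
    ∀ x ∈ K, ∀ q : ∀ j, V j, (∀ j ∈ s, q j ∈ Q j (x j)) → (∀ j, j ∉ s → q j = x j) → q ∈ K := by
  induction s using Finset.induction_on with
  | empty =>
    intro x hx q _ hq
    have : q = x := funext fun j => hq j (Finset.notMem_empty j)
    rwa [this]
  | insert j s hj ih =>
    intro x hx q h1 h2
    have h3 : Function.update q j (x j) ∈ K := by
      refine ih x hx _ ?_ ?_
      · intro i hi
        have hij : i ≠ j := by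
          rintro rfl
          exact hj hi
        rw [Function.update_of_ne hij]
        exact h1 i (Finset.mem_insert_of_mem hi)
      · intro i hi
        by_cases hij : i = j
        · subst hij
          simp
        · rw [Function.update_of_ne hij]
          refine h2 i fun h => ?_
          rcases Finset.mem_insert.1 h with h | h
          · exact hij h
          · exact hi h
    have h5 := hinv _ h3 j (q j) (by
      rw [Function.update_self]
      exact h1 j (Finset.mem_insert_self j s))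
    rwa [Function.update_idem, Function.update_eq_self] at h5

/-- The origin is an interior point. -/
lemma zero_int [Fintype ι] [∀ j, Nontrivial (V j)] {Q : ∀ j, V j → Set (V j)}
    {D : ∀ j, Finset (V j)} (hG : ∀ j, Rule (Q j) (D j)) {K : Set (∀ j, V j)}
    (hinv : ∀ x ∈ K, ∀ j, ∀ q ∈ Q j (x j), Function.update x j q ∈ K)
    (hKi : (interior K).Nonempty) : (0 : ∀ j, V j) ∈ interior K := by
  classical
  obtain ⟨x, hx⟩ := hKi
  obtain ⟨ρ, hρ, hball⟩ := Metric.isOpen_iff.1 isOpen_interior x hx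
  have hy : ∀ j, ∃ y : V j, y ≠ 0 ∧ dist y (x j) < ρ := by
    intro j
    by_cases h : x j = 0
    · obtain ⟨v, hv⟩ := exists_ne (0 : V j)
      have hv' : 0 < ‖v‖ := norm_pos_iff.2 hv
      refine ⟨(ρ / 2 / ‖v‖) • v, ?_, ?_⟩
      · exact smul_ne_zero (by positivity) hv
      · rw [h, dist_zero_right, norm_smul, Real.norm_eq_abs, abs_of_pos (by positivity),
          div_mul_cancel₀ _ hv'.ne']
        linarith
    · exact ⟨x j, h, by simpa using hρ⟩
  choose y hy0 hyx using hy
  have hyK : y ∈ K := by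
    apply interior_subset
    apply hball
    rw [mem_ball, dist_pi_lt_iff hρ]
    exact hyx
  refine mem_interior.2 ⟨Set.pi Set.univ fun j => interior (Q j (y j)), ?_, ?_, ?_⟩
  · intro z hz
    refine fill hinv Finset.univ y hyK z ?_ ?_
    · intro j _
      exact interior_subset (hz j (Set.mem_univ j))
    · intro j hj
      exact absurd (Finset.mem_univ j) hj
  · exact isOpen_set_pi Set.finite_univ fun j _ => isOpen_interior
  · intro j _
    exact (hG j).zero (y j) (hy0 j)

omit [DecidableEq ι] in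
/-- A uniform version of `Rule.step` for all factors. -/
lemma step_all [Fintype ι] [∀ j, ProperSpace (V j)] {Q : ∀ j, V j → Set (V j)}
    {D : ∀ j, Finset (V j)} (hG : ∀ j, Rule (Q j) (D j)) {η R : ℝ} (hη : 0 < η) :
    ∃ κ : ℝ, 0 < κ ∧ ∃ s0 : ℝ, 0 < s0 ∧ κ * s0 < 1 ∧
      ∀ j, ∀ x : V j, η ≤ ‖x‖ → ‖x‖ ≤ R → ∃ w ∈ D j, ∀ s : ℝ, 0 ≤ s → s ≤ s0 → ∀ l : ℝ, 0 ≤ l →
        l ≤ κ * s → ∃ p ∈ Q j x, x + s • w = (1 - l) • p := by
  classical
  choose κ hκ s0 hs0 h1 h2 using fun j => (hG j).step (R := R) hη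
  obtain ⟨κ₀, hκ₀0, hκ₀⟩ : ∃ κ₀ : ℝ, 0 < κ₀ ∧ ∀ j, κ₀ ≤ κ j := by
    rcases isEmpty_or_nonempty ι with hemp | hnonemp
    · exact ⟨1, one_pos, fun j => (hemp.false j).elim⟩
    · obtain ⟨j, -, hj⟩ := Finset.exists_min_image Finset.univ κ Finset.univ_nonempty
      exact ⟨κ j, hκ j, fun i => hj i (Finset.mem_univ i)⟩
  obtain ⟨s₁, hs₁0, hs₁⟩ : ∃ s₁ : ℝ, 0 < s₁ ∧ ∀ j, s₁ ≤ s0 j := by
    rcases isEmpty_or_nonempty ι with hemp | hnonemp
    · exact ⟨1, one_pos, fun j => (hemp.false j).elim⟩
    · obtain ⟨j, -, hj⟩ := Finset.exists_min_image Finset.univ s0 Finset.univ_nonempty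
      exact ⟨s0 j, hs0 j, fun i => hj i (Finset.mem_univ i)⟩
  have hpos : 0 < min s₁ (1 / (2 * κ₀)) := lt_min hs₁0 (by positivity)
  refine ⟨κ₀, hκ₀0, min s₁ (1 / (2 * κ₀)), hpos, ?_, ?_⟩
  · calc κ₀ * min s₁ (1 / (2 * κ₀)) ≤ κ₀ * (1 / (2 * κ₀)) :=
          mul_le_mul_of_nonneg_left (min_le_right _ _) hκ₀0.le
      _ = 1 / 2 := by field_simp
      _ < 1 := by norm_num
  · intro j x hx hxR
    obtain ⟨w, hw, hw'⟩ := h2 j x hx hxR
    refine ⟨w, hw, fun s hs hs' l hl hl' => ?_⟩
    have hs2 : s ≤ s0 j := hs'.trans ((min_le_left _ _).trans (hs₁ j))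
    obtain ⟨p, hp, hp'⟩ := hw' s hs hs2
    have h3 : κ₀ * s ≤ κ j * s := mul_le_mul_of_nonneg_right (hκ₀ j) hs
    have h4 : κ j * s ≤ κ j * s0 j := mul_le_mul_of_nonneg_left hs2 (hκ j).le
    have h5 := h1 j
    have h6 : 0 < 1 - l := by linarith
    have hx0 : x ≠ 0 := by
      rintro rfl
      rw [norm_zero] at hx
      linarith
    refine ⟨((1 - κ j * s) / (1 - l)) • p, ?_, ?_⟩
    · have h0 : (0 : V j) ∈ Q j x := interior_subset ((hG j).zero x hx0)
      have h3 := ((hG j).conv x) h0 hp (a := 1 - (1 - κ j * s) / (1 - l))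
        (b := (1 - κ j * s) / (1 - l))
        (by rw [sub_nonneg, div_le_one h6]; linarith)
        (div_nonneg (by linarith) h6.le) (by ring)
      rwa [smul_zero, zero_add] at h3
    · rw [smul_smul, mul_div_cancel₀ _ h6.ne']
      exact hp'

end Pool.Agent.U194.Block
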