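import Pool.Agent.U194.Block.Fill
import Pool.Agent.W396.Il.Basic

set_option autoImplicit false
set_option linter.unusedSectionVars false

/-!
Groups (or monoids) of isometries: the condition on the origin follows from the condition on the
illumination. A criterion with supporting functionals.
-/

namespace Pool.Agent.U194.Block

open Set Metric Filter Topology
open scoped InnerProductSpace

variable {V : Type*} [NormedAddCommGroup V] [InnerProductSpace ℝ V] [FiniteDimensional ℝ V]

/-- the maps of a set of isometries -/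
def maps (G : Set (V ≃ₗᵢ[ℝ] V)) : Set (V → V) := {f | ∃ g ∈ G, f = g}

lemma orb_maps (G : Set (V ≃ₗᵢ[ℝ] V)) (x : V) :
    {y | ∃ f ∈ maps G, f x = y} = {y | ∃ g ∈ G, g x = y} := by
  ext y
  constructor
  · rintro ⟨f, ⟨g, hg, rfl⟩, rfl⟩
    exact ⟨g, hg, rfl⟩
  · rintro ⟨g, hg, rfl⟩
    exact ⟨g, ⟨g, hg, rfl⟩, rfl⟩

lemma good_of_group {G : Set (V ≃ₗᵢ[ℝ] V)} (h1 : 1 ∈ G) (hmul : ∀ g ∈ G, ∀ h ∈ G, g * h ∈ G)
    {D : Finset V} (hD : ∀ x : V, x ≠ 0 → ∃ w ∈ D, ∃ ε : ℝ, 0 < ε ∧
      x + ε • w ∈ interior (convexHull ℝ {y | ∃ g ∈ G, g x = y})) : Good (maps G) D := by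
  have hP : ∀ x, convexHull ℝ {y | ∃ g ∈ G, g x = y} ⊆ P (maps G) x := by
    intro x
    rw [P, orb_maps]
    exact subset_closure
  have hself : ∀ x, x ∈ P (maps G) x := by
    intro x
    exact mem_P (G := maps G) (g := ⇑(1 : V ≃ₗᵢ[ℝ] V)) ⟨1, h1, rfl⟩ x
  have hinvP : ∀ x, ∀ g ∈ G, ∀ y ∈ P (maps G) x, g y ∈ P (maps G) x := by
    intro x g hg
    have : P (maps G) x ⊆ {y | g y ∈ P (maps G) x} := by
      refine P_subset ?_ ?_ ?_
      · exact (P_convex _ _).is_linear_preimage g.toLinearEquiv.toLinearMap.isLinear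
      · exact (P_closed _ _).preimage g.continuous
      · rintro f ⟨h, hh, rfl⟩
        exact mem_P (G := maps G) (g := ⇑(g * h)) ⟨g * h, hmul g hg h hh, rfl⟩ x
    exact this
  refine ⟨?_, hself, ?_, ?_⟩
  · rintro f ⟨g, _, rfl⟩ x y
    rw [← map_sub, LinearIsometryEquiv.norm_map]
  · intro x hx
    obtain ⟨w, _, ε, hε, hw⟩ := hD x hx
    have hw' := interior_mono (hP x) hw
    obtain ⟨ρ, hρ, hball⟩ := Metric.isOpen_iff.1 isOpen_interior _ hw'
    set Q : Set V := {p | closedBall p (ρ / 2) ⊆ P (maps G) x} with hQ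
    have hQne : Q.Nonempty := ⟨x + ε • w, ((closedBall_subset_ball (by linarith)).trans hball).trans
      interior_subset⟩
    have hQeq : Q = ⋂ v ∈ closedBall (0 : V) (ρ / 2), {p | p + v ∈ P (maps G) x} := by
      ext p
      simp only [hQ, mem_ofPred_eq, mem_iInter]
      constructor
      · intro h v hv
        apply h
        rw [mem_closedBall, dist_eq_norm] at *
        simpa using hv
      · intro h y hy
        have := h (y - p) (by
          rw [mem_closedBall, dist_eq_norm] at *
          simpa using hy)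
        simpa using this
    have hQc : IsClosed Q := by
      rw [hQeq]
      refine isClosed_biInter fun v _ => ?_
      exact (P_closed _ _).preimage (continuous_id.add continuous_const)
    have hQconv : Convex ℝ Q := by
      rw [hQeq]
      refine convex_iInter₂ fun v _ => ?_
      intro a ha b hb s t hs ht hst
      have h2 := (P_convex (maps G) x) ha hb hs ht hst
      show s • a + t • b + v ∈ P (maps G) x
      have h3 : s • (a + v) + t • (b + v) = s • a + t • b + v := by
        have : v = s • v + t • v := by rw [← add_smul, hst, one_smul]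
        nth_rewrite 3 [this]
        rw [smul_add, smul_add]
        abel
      rwa [h3] at h2
    have hQinv : ∀ g ∈ G, ∀ p ∈ Q, g p ∈ Q := by
      intro g hg p hp y hy
      obtain ⟨z, rfl⟩ := g.surjective y
      refine hinvP x g hg z (hp ?_)
      rw [mem_closedBall, dist_eq_norm] at hy ⊢
      rwa [← map_sub, LinearIsometryEquiv.norm_map] at hy
    -- the point of minimal norm
    obtain ⟨v, hvQ, hv⟩ := exists_norm_eq_iInf_of_complete_convex hQne hQc.isComplete hQconv 0
    rw [norm_eq_iInf_iff_real_inner_le_zero hQconv hvQ] at hv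
    have hfix : ∀ g ∈ G, g v = v := by
      intro g hg
      have h3 := hv (g v) (hQinv g hg v hvQ)
      rw [zero_sub, inner_neg_left, inner_sub_right, real_inner_self_eq_norm_sq] at h3
      have h4 : ‖g v - v‖ ^ 2 ≤ 0 := by
        rw [norm_sub_sq_real, LinearIsometryEquiv.norm_map, real_inner_comm]
        linarith
      have h5 : ‖g v - v‖ = 0 := by
        have := norm_nonneg (g v - v)
        nlinarith
      rwa [norm_eq_zero, sub_eq_zero] at h5
    have hv0 : v = 0 := by
      by_contra hv0
      obtain ⟨w', _, ε', _, hw'⟩ := hD v hv0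
      have h6 : {y | ∃ g ∈ G, g v = y} = {v} := by
        ext y
        constructor
        · rintro ⟨g, hg, rfl⟩
          exact hfix g hg
        · rintro rfl
          exact ⟨1, h1, rfl⟩
      rw [h6, convexHull_singleton] at hw'
      have : Nontrivial V := ⟨v, 0, hv0⟩
      rw [interior_singleton] at hw'
      exact hw'
    rw [hv0] at hvQ
    have h7 : ball (0 : V) (ρ / 2) ⊆ P (maps G) x := ball_subset_closedBall.trans hvQ
    exact mem_interior.2 ⟨_, h7, isOpen_ball, mem_ball_self (by positivity)⟩
  · intro x hx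
    obtain ⟨w, hwD, ε, hε, hw⟩ := hD x hx
    exact ⟨w, hwD, ε, hε, interior_mono (hP x) hw⟩

/-- Criterion for illumination, without assumption on the interior. -/
theorem ill_of_normal' {K : Set V} (hK : Convex ℝ K) {x v : V} (hx : x ∈ K)
    (h : ∀ f : V →L[ℝ] ℝ, f ≠ 0 → (∀ y ∈ K, f y ≤ f x) → f v < 0) :
    ∃ ε : ℝ, 0 < ε ∧ x + ε • v ∈ interior K := by
  by_cases hi : (interior K).Nonempty
  · exact Pool.Agent.W396.Il.ill_of_normal hK hi hx h
  · exfalso
    rw [hK.interior_nonempty_iff_affineSpan_eq_top] at hi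
    have h1 : vectorSpan ℝ K ≠ ⊤ := by
      intro h1
      apply hi
      rw [← direction_affineSpan] at h1
      exact (AffineSubspace.direction_eq_top_iff_of_nonempty
        ((affineSpan_nonempty ℝ).2 ⟨x, hx⟩)).1 h1
    obtain ⟨f, hf, hf'⟩ := Submodule.exists_le_ker_of_lt_top _ (lt_top_iff_ne_top.2 h1)
    have h2 : ∀ y ∈ K, f y = f x := by
      intro y hy
      have h3 : y - x ∈ vectorSpan ℝ K := by
        have := vsub_mem_vectorSpan ℝ hy hx
        rwa [vsub_eq_sub] at this
      have h4 := hf' h3
      rw [LinearMap.mem_ker, map_sub, sub_eq_zero] at h4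
      exact h4
    set F : V →L[ℝ] ℝ := LinearMap.toContinuousLinearMap f with hF
    have hFf : ∀ y, F y = f y := fun y => rfl
    have hF0 : F ≠ 0 := by
      intro h5
      apply hf
      ext y
      rw [← hFf, h5]
      rfl
    have h6 := h F hF0 fun y hy => by rw [hFf, hFf, h2 y hy]
    have h7 := h (-F) (neg_ne_zero.2 hF0) fun y hy => by
      rw [_root_.neg_apply, _root_.neg_apply, hFf, hFf, h2 y hy]
    rw [_root_.neg_apply] at h7
    linarith

end Pool.Agent.U194.Block
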