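import Pool.Agent.U194.Block.Esymm

set_option autoImplicit false
set_option linter.unusedSectionVars false

/-!
A chain decomposition of the poset of all partial choices into as many chains as its largest level
has elements, and the resulting rankings.
-/

namespace Pool.Agent.U194.Block

open Finset

/-- A fractional form of Hall's theorem. -/
lemma frac_hall {X Y : Type*} [Fintype X] [Fintype Y] [DecidableEq Y] (w : X → Y → ℝ)
    (h0 : ∀ x y, 0 ≤ w x y) (h1 : ∀ x, 1 ≤ ∑ y, w x y) (h2 : ∀ y, ∑ x, w x y ≤ 1) :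
    ∃ f : X → Y, Function.Injective f ∧ ∀ x, 0 < w x (f x) := by
  classical
  set t : X → Finset Y := fun x => univ.filter fun y => 0 < w x y with ht
  have hall : ∀ A : Finset X, A.card ≤ (A.biUnion t).card := by
    intro A
    have h3 : (A.card : ℝ) ≤ (A.biUnion t).card := by
      calc (A.card : ℝ) = ∑ x ∈ A, (1 : ℝ) := by simp
        _ ≤ ∑ x ∈ A, ∑ y, w x y := Finset.sum_le_sum fun x _ => h1 x
        _ = ∑ x ∈ A, ∑ y ∈ A.biUnion t, w x y := by
            refine Finset.sum_congr rfl fun x hx => ?_
            symm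
            refine Finset.sum_subset (Finset.subset_univ _) fun y _ hy => ?_
            refine le_antisymm (not_lt.1 fun h => hy ?_) (h0 x y)
            exact Finset.mem_biUnion.2 ⟨x, hx, Finset.mem_filter.2 ⟨Finset.mem_univ _, h⟩⟩
        _ = ∑ y ∈ A.biUnion t, ∑ x ∈ A, w x y := Finset.sum_comm
        _ ≤ ∑ y ∈ A.biUnion t, (1 : ℝ) := by
            refine Finset.sum_le_sum fun y _ => le_trans ?_ (h2 y)
            exact Finset.sum_le_sum_of_subset_of_nonneg (Finset.subset_univ _)
              fun x _ _ => h0 x y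
        _ = (A.biUnion t).card := by simp
    exact_mod_cast h3
  obtain ⟨f, hf1, hf2⟩ := (Finset.all_card_le_biUnion_card_iff_exists_injective t).1 hall
  exact ⟨f, hf1, fun x => (Finset.mem_filter.1 (hf2 x)).2⟩

variable {ι : Type*} [Fintype ι] [DecidableEq ι] {N : ι → ℕ}

/-- the set of the coordinates where a choice has been made -/
def supp (p : ∀ j, Option (Fin (N j))) : Finset ι := univ.filter fun j => p j ≠ none

/-- the number of the coordinates where a choice has been made -/
def lev (p : ∀ j, Option (Fin (N j))) : ℕ := (supp p).card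

lemma mem_supp {p : ∀ j, Option (Fin (N j))} {j : ι} : j ∈ supp p ↔ p j ≠ none := by
  simp [supp]

/-- extension of partial choices -/
def Le (p q : ∀ j, Option (Fin (N j))) : Prop := ∀ j, p j ≠ none → q j = p j

lemma Le.refl (p : ∀ j, Option (Fin (N j))) : Le p p := fun _ _ => rfl

lemma Le.trans {p q r : ∀ j, Option (Fin (N j))} (h1 : Le p q) (h2 : Le q r) : Le p r := by
  intro j hj
  have e1 := h1 j hj
  rw [h2 j (by rwa [e1]), e1]

lemma supp_update_none (q : ∀ j, Option (Fin (N j))) (j : ι) :
    supp (Function.update q j none) = (supp q).erase j := by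
  ext i
  rw [Finset.mem_erase, mem_supp, mem_supp]
  by_cases hi : i = j
  · subst hi
    simp
  · simp [hi]

lemma le_update_none (q : ∀ j, Option (Fin (N j))) (j : ι) : Le (Function.update q j none) q := by
  intro i hi
  by_cases hij : i = j
  · subst hij
    simp at hi
  · rw [Function.update_of_ne hij]

lemma lev_update_none {q : ∀ j, Option (Fin (N j))} {j : ι} (hj : q j ≠ none) :
    lev (Function.update q j none) + 1 = lev q := by
  unfold lev
  rw [supp_update_none, Finset.card_erase_add_one (mem_supp.2 hj)]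

/-- the weight of a pair -/
noncomputable def wt (a : ι → ℝ) (p q : ∀ j, Option (Fin (N j))) : ℝ :=
  ∑ j, if q j ≠ none ∧ p = Function.update q j none then a j else 0

lemma wt_nonneg {a : ι → ℝ} (ha : ∀ j, 0 ≤ a j) (p q : ∀ j, Option (Fin (N j))) :
    0 ≤ wt a p q := by
  refine Finset.sum_nonneg fun j _ => ?_
  split_ifs
  · exact ha j
  · exact le_rfl

lemma exists_of_wt {a : ι → ℝ} {p q : ∀ j, Option (Fin (N j))} (h : wt a p q ≠ 0) :
    ∃ j, q j ≠ none ∧ p = Function.update q j none := by
  by_contra hcon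
  push Not at hcon
  refine h (Finset.sum_eq_zero fun j _ => ?_)
  rw [if_neg]
  rintro ⟨h1, h2⟩
  exact hcon j h1 h2

lemma wt_row (a : ι → ℝ) (p : ∀ j, Option (Fin (N j))) :
    ∑ q, wt a p q = ∑ j ∈ (supp p)ᶜ, (N j : ℝ) * a j := by
  unfold wt
  rw [Finset.sum_comm]
  have h1 : ∀ j, (∑ q : ∀ j, Option (Fin (N j)),
      if q j ≠ none ∧ p = Function.update q j none then a j else 0) =
      if j ∈ (supp p)ᶜ then (N j : ℝ) * a j else 0 := by
    intro j
    rw [← Finset.sum_filter, Finset.sum_const, nsmul_eq_mul]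
    by_cases hj : p j = none
    · have hj' : j ∈ (supp p)ᶜ := by
        rw [Finset.mem_compl, mem_supp]
        simpa using hj
      rw [if_pos hj']
      have hinj : Function.Injective (fun v : Fin (N j) => Function.update p j (some v)) := by
        intro v v' h
        have := congrFun h j
        simpa using this
      have e1 : (univ.filter fun q : ∀ j, Option (Fin (N j)) =>
          q j ≠ none ∧ p = Function.update q j none) =
          univ.image fun v : Fin (N j) => Function.update p j (some v) := by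
        ext q
        rw [Finset.mem_filter, Finset.mem_image]
        constructor
        · rintro ⟨-, h1, h2⟩
          obtain ⟨v, hv⟩ := Option.ne_none_iff_exists'.1 h1
          refine ⟨v, Finset.mem_univ _, ?_⟩
          rw [h2, Function.update_idem, ← hv, Function.update_eq_self]
        · rintro ⟨v, -, rfl⟩
          refine ⟨Finset.mem_univ _, by simp, ?_⟩
          rw [Function.update_idem, ← hj, Function.update_eq_self]
      rw [e1, Finset.card_image_of_injective _ hinj, Finset.card_univ, Fintype.card_fin]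
    · have hj' : j ∉ (supp p)ᶜ := by
        rw [Finset.mem_compl, mem_supp]
        simpa using hj
      rw [if_neg hj', Finset.filter_eq_empty_iff.2, Finset.card_empty, Nat.cast_zero, zero_mul]
      rintro q - ⟨-, h2⟩
      apply hj
      rw [h2]
      simp
  rw [Finset.sum_congr rfl fun j _ => h1 j, ← Finset.sum_filter]
  refine Finset.sum_congr ?_ fun _ _ => rfl
  ext j
  simp

lemma wt_col (α : Finset ι → ι → ℝ) (q : ∀ j, Option (Fin (N j))) :
    ∑ p, wt (α (supp p)) p q = ∑ j ∈ supp q, α ((supp q).erase j) j := by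
  unfold wt
  rw [Finset.sum_comm]
  have h1 : ∀ j, (∑ p : ∀ j, Option (Fin (N j)),
      if q j ≠ none ∧ p = Function.update q j none then α (supp p) j else 0) =
      if j ∈ supp q then α ((supp q).erase j) j else 0 := by
    intro j
    by_cases hj : q j = none
    · have hj' : j ∉ supp q := by
        rw [mem_supp]
        simpa using hj
      rw [if_neg hj']
      refine Finset.sum_eq_zero fun p _ => ?_
      rw [if_neg]
      rintro ⟨h, -⟩
      exact h hj
    · have hj' : j ∈ supp q := mem_supp.2 hj
      rw [if_pos hj', Finset.sum_eq_single (Function.update q j none)]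
      · rw [if_pos ⟨hj, rfl⟩, supp_update_none]
      · intro p _ hp
        rw [if_neg]
        rintro ⟨-, h⟩
        exact hp h
      · intro h
        exact absurd (Finset.mem_univ _) h
  rw [Finset.sum_congr rfl fun j _ => h1 j, ← Finset.sum_filter]
  refine Finset.sum_congr ?_ fun _ _ => rfl
  ext j
  simp

lemma sum_subtype_le {X : Type*} [Fintype X] (Q : X → Prop) [DecidablePred Q] {F : X → ℝ}
    (hF : ∀ x, 0 ≤ F x) : ∑ i : {x // Q x}, F i.1 ≤ ∑ x, F x := by
  rw [← Finset.sum_subtype (univ.filter Q) (by simp) F]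
  exact Finset.sum_le_sum_of_subset_of_nonneg (Finset.subset_univ _) fun x _ _ => hF x

/-- Matching of a level into the next one. -/
lemma exists_up (hN : ∀ j, 0 < N j) {k : ℕ} (hk : k + 1 ≤ Fintype.card ι)
    (hle : es (fun j => (N j : ℝ)) univ k ≤ es (fun j => (N j : ℝ)) univ (k + 1)) :
    ∃ f : (∀ j, Option (Fin (N j))) → (∀ j, Option (Fin (N j))),
      (∀ p p', lev p = k → lev p' = k → f p = f p' → p = p') ∧
      ∀ p, lev p = k → Le p (f p) ∧ lev (f p) = k + 1 := by
  classical
  have hN' : ∀ j, (0 : ℝ) < N j := fun j => by exact_mod_cast hN j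
  have hpos : 0 < es (fun j => (N j : ℝ)) univ (k + 1) := es_pos hN' (by simpa using hk)
  have hb0 := be_nonneg (N := fun j => (N j : ℝ)) (fun j => (hN' j).le) k
  obtain ⟨f, hf1, hf2⟩ := frac_hall (X := {p : ∀ j, Option (Fin (N j)) // lev p = k})
    (Y := ∀ j, Option (Fin (N j)))
    (fun p q => wt (be (fun j => (N j : ℝ)) k (supp p.1)) p.1 q /
      es (fun j => (N j : ℝ)) univ (k + 1))
    (fun p q => div_nonneg (wt_nonneg (hb0 _) _ _) hpos.le)
    (by
      intro p
      rw [← Finset.sum_div, wt_row, be_row p.2, div_self hpos.ne'])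
    (by
      intro q
      by_cases hq : lev q = k + 1
      · rw [← Finset.sum_div, div_le_one hpos]
        refine le_trans ?_ hle
        rw [← be_col (N := fun j => (N j : ℝ)) hq, ← wt_col (be (fun j => (N j : ℝ)) k) q]
        exact sum_subtype_le _ (F := fun p => wt (be (fun j => (N j : ℝ)) k (supp p)) p q)
          fun p => wt_nonneg (hb0 _) _ _
      · rw [Finset.sum_eq_zero]
        · exact zero_le_one
        · intro p _
          rw [div_eq_zero_iff]
          left
          by_contra hcon
          obtain ⟨j, hj1, hj2⟩ := exists_of_wt hcon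
          have := lev_update_none hj1
          rw [← hj2, p.2] at this
          exact hq this.symm)
  refine ⟨fun p => if h : lev p = k then f ⟨p, h⟩ else p, ?_, ?_⟩
  · intro p p' hp hp' h
    simp only [dif_pos hp, dif_pos hp'] at h
    exact congrArg Subtype.val (hf1 h)
  · intro p hp
    simp only [dif_pos hp]
    have h1 := hf2 ⟨p, hp⟩
    have h2 : wt (be (fun j => (N j : ℝ)) k (supp p)) p (f ⟨p, hp⟩) ≠ 0 := by
      intro h
      simp only at h1
      rw [h, zero_div] at h1
      exact lt_irrefl _ h1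
    obtain ⟨j, hj1, hj2⟩ := exists_of_wt h2
    have h3 := lev_update_none hj1
    have h4 := le_update_none (f ⟨p, hp⟩) j
    rw [← hj2] at h3 h4
    exact ⟨h4, by omega⟩

/-- Matching of a level into the previous one. -/
lemma exists_down (hN : ∀ j, 0 < N j) {k : ℕ} (hk : k ≤ Fintype.card ι)
    (hle : es (fun j => (N j : ℝ)) univ (k + 1) ≤ es (fun j => (N j : ℝ)) univ k) :
    ∃ f : (∀ j, Option (Fin (N j))) → (∀ j, Option (Fin (N j))),
      (∀ p p', lev p = k + 1 → lev p' = k + 1 → f p = f p' → p = p') ∧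
      ∀ p, lev p = k + 1 → Le (f p) p ∧ lev (f p) = k := by
  classical
  have hN' : ∀ j, (0 : ℝ) < N j := fun j => by exact_mod_cast hN j
  have hpos : 0 < es (fun j => (N j : ℝ)) univ k := es_pos hN' (by simpa using hk)
  have hb0 := be_nonneg (N := fun j => (N j : ℝ)) (fun j => (hN' j).le) k
  obtain ⟨f, hf1, hf2⟩ := frac_hall (X := {p : ∀ j, Option (Fin (N j)) // lev p = k + 1})
    (Y := ∀ j, Option (Fin (N j)))
    (fun q p => wt (be (fun j => (N j : ℝ)) k (supp p)) p q.1 /
      es (fun j => (N j : ℝ)) univ k)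
    (fun q p => div_nonneg (wt_nonneg (hb0 _) _ _) hpos.le)
    (by
      intro q
      rw [← Finset.sum_div, wt_col (be (fun j => (N j : ℝ)) k) q.1,
        be_col (N := fun j => (N j : ℝ)) q.2, div_self hpos.ne'])
    (by
      intro p
      by_cases hp : lev p = k
      · rw [← Finset.sum_div, div_le_one hpos]
        refine le_trans ?_ hle
        rw [← be_row (N := fun j => (N j : ℝ)) hp, ← wt_row]
        exact sum_subtype_le _ (F := fun q => wt (be (fun j => (N j : ℝ)) k (supp p)) p q)
          fun q => wt_nonneg (hb0 _) _ _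
      · rw [Finset.sum_eq_zero]
        · exact zero_le_one
        · intro q _
          rw [div_eq_zero_iff]
          left
          by_contra hcon
          obtain ⟨j, hj1, hj2⟩ := exists_of_wt hcon
          have := lev_update_none hj1
          rw [← hj2, q.2] at this
          exact hp (by omega))
  refine ⟨fun p => if h : lev p = k + 1 then f ⟨p, h⟩ else p, ?_, ?_⟩
  · intro p p' hp hp' h
    simp only [dif_pos hp, dif_pos hp'] at h
    exact congrArg Subtype.val (hf1 h)
  · intro q hq
    simp only [dif_pos hq]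
    have h1 := hf2 ⟨q, hq⟩
    have h2 : wt (be (fun j => (N j : ℝ)) k (supp (f ⟨q, hq⟩))) (f ⟨q, hq⟩) q ≠ 0 := by
      intro h
      simp only at h1
      rw [h, zero_div] at h1
      exact lt_irrefl _ h1
    obtain ⟨j, hj1, hj2⟩ := exists_of_wt h2
    have h3 := lev_update_none hj1
    have h4 := le_update_none q j
    rw [← hj2] at h3 h4
    exact ⟨h4, by omega⟩

/-- Iteration upwards. -/
lemma iter_up {m : ℕ} {F : (∀ j, Option (Fin (N j))) → (∀ j, Option (Fin (N j)))}
    (hF : ∀ p, lev p < m → Le p (F p) ∧ lev (F p) = lev p + 1) (n : ℕ) :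
    ∀ p, lev p + n ≤ m → Le p (F^[n] p) ∧ lev (F^[n] p) = lev p + n := by
  induction n with
  | zero => exact fun p _ => ⟨Le.refl p, rfl⟩
  | succ n ih =>
    intro p hp
    obtain ⟨h1, h2⟩ := ih p (by omega)
    obtain ⟨h3, h4⟩ := hF (F^[n] p) (by omega)
    rw [Function.iterate_succ_apply']
    exact ⟨h1.trans h3, by omega⟩

lemma iter_up_inj {m : ℕ} {F : (∀ j, Option (Fin (N j))) → (∀ j, Option (Fin (N j)))}
    (hF : ∀ p, lev p < m → Le p (F p) ∧ lev (F p) = lev p + 1)
    (hFi : ∀ p p', lev p < m → lev p = lev p' → F p = F p' → p = p') (n : ℕ) :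
    ∀ p p', lev p + n ≤ m → lev p = lev p' → F^[n] p = F^[n] p' → p = p' := by
  induction n with
  | zero => exact fun p p' _ _ h => h
  | succ n ih =>
    intro p p' hp hpp h
    rw [Function.iterate_succ_apply, Function.iterate_succ_apply] at h
    have h1 := (hF p (by omega)).2
    have h2 := (hF p' (by omega)).2
    exact hFi p p' (by omega) hpp (ih _ _ (by omega) (by omega) h)

/-- Iteration downwards. -/
lemma iter_down {m : ℕ} {F : (∀ j, Option (Fin (N j))) → (∀ j, Option (Fin (N j)))}
    (hF : ∀ p, m < lev p → Le (F p) p ∧ lev (F p) + 1 = lev p) (n : ℕ) :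
    ∀ p, m + n ≤ lev p → Le (F^[n] p) p ∧ lev (F^[n] p) + n = lev p := by
  induction n with
  | zero => exact fun p _ => ⟨Le.refl p, rfl⟩
  | succ n ih =>
    intro p hp
    obtain ⟨h1, h2⟩ := ih p (by omega)
    obtain ⟨h3, h4⟩ := hF (F^[n] p) (by omega)
    rw [Function.iterate_succ_apply']
    exact ⟨h3.trans h1, by omega⟩

lemma iter_down_inj {m : ℕ} {F : (∀ j, Option (Fin (N j))) → (∀ j, Option (Fin (N j)))}
    (hF : ∀ p, m < lev p → Le (F p) p ∧ lev (F p) + 1 = lev p)
    (hFi : ∀ p p', m < lev p → lev p = lev p' → F p = F p' → p = p') (n : ℕ) :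
    ∀ p p', m + n ≤ lev p → lev p = lev p' → F^[n] p = F^[n] p' → p = p' := by
  induction n with
  | zero => exact fun p p' _ _ h => h
  | succ n ih =>
    intro p p' hp hpp h
    rw [Function.iterate_succ_apply, Function.iterate_succ_apply] at h
    have h1 := (hF p (by omega)).2
    have h2 := (hF p' (by omega)).2
    exact hFi p p' (by omega) hpp (ih _ _ (by omega) (by omega) h)

/-- The chain decomposition. -/
lemma exists_chains (hN : ∀ j, 0 < N j) : ∃ m ≤ Fintype.card ι,
    ∃ ρ : (∀ j, Option (Fin (N j))) → (∀ j, Option (Fin (N j))),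
      (∀ p, lev (ρ p) = m) ∧ ∀ p p', lev p ≤ lev p' → ρ p = ρ p' → Le p p' := by
  classical
  have hN' : ∀ j, (0 : ℝ) < N j := fun j => by exact_mod_cast hN j
  obtain ⟨m, hm, hup, hdown⟩ := exists_mode hN' (univ : Finset ι)
  rw [Finset.card_univ] at hm
  refine ⟨m, hm, ?_⟩
  have hle : ∀ p : ∀ j, Option (Fin (N j)), lev p ≤ Fintype.card ι := fun p =>
    (Finset.card_le_univ _)
  have h1 : ∀ k, ∃ f : (∀ j, Option (Fin (N j))) → (∀ j, Option (Fin (N j))), k < m →
      (∀ p p', lev p = k → lev p' = k → f p = f p' → p = p') ∧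
      ∀ p, lev p = k → Le p (f p) ∧ lev (f p) = k + 1 := by
    intro k
    by_cases hk : k < m
    · obtain ⟨f, hf⟩ := exists_up hN (k := k) (by omega) (hup k hk)
      exact ⟨f, fun _ => hf⟩
    · exact ⟨id, fun h => absurd h hk⟩
  have h2 : ∀ k, ∃ f : (∀ j, Option (Fin (N j))) → (∀ j, Option (Fin (N j))),
      m < k ∧ k ≤ Fintype.card ι →
      (∀ p p', lev p = k → lev p' = k → f p = f p' → p = p') ∧
      ∀ p, lev p = k → Le (f p) p ∧ lev (f p) + 1 = k := by
    intro k
    by_cases hk : m < k ∧ k ≤ Fintype.card ι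
    · obtain ⟨k, rfl⟩ : ∃ k', k = k' + 1 := ⟨k - 1, by omega⟩
      obtain ⟨f, hf1, hf2⟩ := exists_down hN (k := k) (by omega) (hdown k (by omega))
      refine ⟨f, fun _ => ⟨hf1, fun p hp => ⟨(hf2 p hp).1, ?_⟩⟩⟩
      rw [(hf2 p hp).2]
    · exact ⟨id, fun h => absurd h hk⟩
  choose f hf using h1
  choose g hg using h2
  set F : (∀ j, Option (Fin (N j))) → (∀ j, Option (Fin (N j))) := fun p => f (lev p) p with hFdef
  set G : (∀ j, Option (Fin (N j))) → (∀ j, Option (Fin (N j))) := fun p => g (lev p) p with hGdef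
  have hF : ∀ p, lev p < m → Le p (F p) ∧ lev (F p) = lev p + 1 := fun p hp =>
    (hf (lev p) hp).2 p rfl
  have hFi : ∀ p p', lev p < m → lev p = lev p' → F p = F p' → p = p' := by
    intro p p' hp hpp h
    refine (hf (lev p) hp).1 p p' rfl hpp.symm ?_
    simp only [hFdef] at h
    rw [← hpp] at h
    exact h
  have hG : ∀ p, m < lev p → Le (G p) p ∧ lev (G p) + 1 = lev p := fun p hp =>
    (hg (lev p) ⟨hp, hle p⟩).2 p rfl
  have hGi : ∀ p p', m < lev p → lev p = lev p' → G p = G p' → p = p' := by
    intro p p' hp hpp h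
    refine (hg (lev p) ⟨hp, hle p⟩).1 p p' rfl hpp.symm ?_
    simp only [hGdef] at h
    rw [← hpp] at h
    exact h
  refine ⟨fun p => if lev p ≤ m then F^[m - lev p] p else G^[lev p - m] p, ?_, ?_⟩
  · intro p
    by_cases hp : lev p ≤ m
    · simp only [if_pos hp]
      have := (iter_up hF (m - lev p) p (by omega)).2
      omega
    · simp only [if_neg hp]
      have := (iter_down hG (lev p - m) p (by omega)).2
      omega
  · intro p p' hpp h
    by_cases hp' : lev p' ≤ m
    · have hp : lev p ≤ m := by omega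
      simp only [if_pos hp, if_pos hp'] at h
      obtain ⟨h3, h4⟩ := iter_up hF (lev p' - lev p) p (by omega)
      have h5 : F^[m - lev p] p = F^[m - lev p'] (F^[lev p' - lev p] p) := by
        rw [← Function.iterate_add_apply]
        congr 2
        omega
      rw [h5] at h
      have h6 := iter_up_inj hF hFi (m - lev p') _ _ (by omega) (by omega) h
      rwa [h6] at h3
    · by_cases hp : lev p ≤ m
      · simp only [if_pos hp, if_neg hp'] at h
        have h3 := (iter_up hF (m - lev p) p (by omega)).1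
        have h4 := (iter_down hG (lev p' - m) p' (by omega)).1
        rw [h] at h3
        exact h3.trans h4
      · simp only [if_neg hp, if_neg hp'] at h
        obtain ⟨h3, h4⟩ := iter_down hG (lev p' - lev p) p' (by omega)
        have h5 : G^[lev p' - m] p' = G^[lev p - m] (G^[lev p' - lev p] p') := by
          rw [← Function.iterate_add_apply]
          congr 2
          omega
        rw [h5] at h
        have h6 := iter_down_inj hG hGi (lev p - m) _ _ (by omega) (by omega) h
        rwa [← h6] at h3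

lemma card_supp_eq (S : Finset ι) :
    (univ.filter fun p : ∀ j, Option (Fin (N j)) => supp p = S).card = ∏ j ∈ S, N j := by
  classical
  have e1 : (univ.filter fun p : ∀ j, Option (Fin (N j)) => supp p = S) =
      Fintype.piFinset fun j => if j ∈ S then univ.filter (fun v : Option (Fin (N j)) => v ≠ none)
        else {none} := by
    ext p
    rw [Finset.mem_filter, Fintype.mem_piFinset]
    constructor
    · rintro ⟨-, rfl⟩ j
      by_cases hj : j ∈ supp p
      · rw [if_pos hj]
        exact Finset.mem_filter.2 ⟨Finset.mem_univ _, mem_supp.1 hj⟩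
      · rw [if_neg hj, Finset.mem_singleton]
        by_contra h
        exact hj (mem_supp.2 h)
    · intro h
      refine ⟨Finset.mem_univ _, ?_⟩
      ext j
      have hj := h j
      rw [mem_supp]
      by_cases hjS : j ∈ S
      · rw [if_pos hjS, Finset.mem_filter] at hj
        exact ⟨fun _ => hjS, fun _ => hj.2⟩
      · rw [if_neg hjS, Finset.mem_singleton] at hj
        exact ⟨fun h => absurd hj h, fun h => absurd h hjS⟩
  rw [e1, Fintype.card_piFinset]
  have e2 : ∀ j, (if j ∈ S then univ.filter (fun v : Option (Fin (N j)) => v ≠ none)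
        else {none}).card = if j ∈ S then N j else 1 := by
    intro j
    by_cases hj : j ∈ S
    · rw [if_pos hj, if_pos hj, Finset.filter_ne', Finset.card_erase_of_mem (Finset.mem_univ _),
        Finset.card_univ, Fintype.card_option, Fintype.card_fin]
      rfl
    · rw [if_neg hj, if_neg hj, Finset.card_singleton]
  rw [Finset.prod_congr rfl fun j _ => e2 j, ← Finset.prod_filter]
  refine Finset.prod_congr ?_ fun _ _ => rfl
  ext j
  simp

lemma card_lev (m : ℕ) : Fintype.card {p : ∀ j, Option (Fin (N j)) // lev p = m} =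
    ∑ S ∈ powersetCard m univ, ∏ j ∈ S, N j := by
  classical
  rw [Fintype.card_subtype]
  rw [Finset.card_eq_sum_card_fiberwise (f := supp) (t := powersetCard m univ)]
  · refine Finset.sum_congr rfl fun S hS => ?_
    rw [← card_supp_eq S, Finset.filter_filter]
    congr 1
    ext p
    rw [Finset.mem_filter, Finset.mem_filter]
    refine ⟨fun h => ⟨h.1, h.2.2⟩, fun h => ⟨h.1, ?_, h.2⟩⟩
    rw [lev, h.2]
    exact (Finset.mem_powersetCard.1 hS).2
  · intro p hp
    have := (Finset.mem_filter.1 (Finset.mem_coe.1 hp)).2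
    exact Finset.mem_coe.2 (Finset.mem_powersetCard.2 ⟨Finset.subset_univ _, this⟩)

/-- **Rankings.** -/
theorem exists_serve (hN : ∀ j, 0 < N j) : ∃ m ≤ Fintype.card ι,
    ∃ (c : {p : ∀ j, Option (Fin (N j)) // lev p = m} → ∀ j, Fin (N j))
      (b : {p : ∀ j, Option (Fin (N j)) // lev p = m} → ι → ℕ),
      ∀ (S : Finset ι) (c₀ : ∀ j, Fin (N j)), ∃ μ, (∀ i ∈ S, c μ i = c₀ i) ∧
        ∀ i ∈ S, ∀ j, j ∉ S → b μ i < b μ j := by
  classical
  obtain ⟨m, hm, ρ, hρ1, hρ2⟩ := exists_chains hN
  refine ⟨m, hm, ?_⟩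
  have hle : ∀ p : ∀ j, Option (Fin (N j)), lev p ≤ Fintype.card ι := fun p =>
    (Finset.card_le_univ _)
  have hc : ∀ (μ : {p : ∀ j, Option (Fin (N j)) // lev p = m}) (j : ι), ∃ v : Fin (N j),
      ∀ p, ρ p = μ.1 → p j ≠ none → p j = some v := by
    intro μ j
    by_cases h : ∃ p, ρ p = μ.1 ∧ p j ≠ none
    · obtain ⟨p, hp1, hp2⟩ := h
      obtain ⟨v, hv⟩ := Option.ne_none_iff_exists'.1 hp2
      refine ⟨v, fun p' hp' hp2' => ?_⟩
      rcases le_total (lev p) (lev p') with h | h
      · rw [hρ2 p p' h (hp1.trans hp'.symm) j hp2, hv]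
      · rw [← hρ2 p' p h (hp'.trans hp1.symm) j hp2', hv]
    · exact ⟨⟨0, hN j⟩, fun p hp hp' => absurd ⟨p, hp, hp'⟩ h⟩
  choose c hc using hc
  refine ⟨c, fun μ j => sInf {n | n = Fintype.card ι + 1 ∨ ∃ p, ρ p = μ.1 ∧ lev p = n ∧
    p j ≠ none}, ?_⟩
  intro S c₀
  set p : ∀ j, Option (Fin (N j)) := fun j => if j ∈ S then some (c₀ j) else none with hp
  refine ⟨⟨ρ p, hρ1 p⟩, ?_, ?_⟩
  · intro i hi
    have h1 : p i = some (c₀ i) := by simp only [hp, if_pos hi]
    have h2 := hc ⟨ρ p, hρ1 p⟩ i p rfl (by rw [h1]; simp)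
    rw [h1] at h2
    exact (Option.some.inj h2).symm
  · intro i hi j hj
    have h1 : p i ≠ none := by simp only [hp, if_pos hi]; simp
    have h2 : p j = none := by simp only [hp, if_neg hj]
    have h3 : sInf {n | n = Fintype.card ι + 1 ∨ ∃ p', ρ p' = ρ p ∧ lev p' = n ∧
        p' i ≠ none} ≤ lev p := Nat.sInf_le (Or.inr ⟨p, rfl, rfl, h1⟩)
    refine lt_of_le_of_lt h3 ?_
    have hne : Set.Nonempty {n | n = Fintype.card ι + 1 ∨ ∃ p', ρ p' = ρ p ∧ lev p' = n ∧
        p' j ≠ none} := ⟨_, Or.inl rfl⟩
    rcases Nat.sInf_mem hne with h4 | ⟨p', hp1, hp2, hp3⟩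
    · simp only
      rw [h4]
      have := hle p
      omega
    · simp only
      rw [← hp2]
      by_contra hcon
      push Not at hcon
      have h5 := hρ2 p' p hcon hp1 j hp3
      rw [h2] at h5
      exact hp3 h5.symm

end Pool.Agent.U194.Block
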