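import Pool.Agent.U194.Block.Group

set_option autoImplicit false

/-!
The signed permutations of `m` coordinates: `2 ^ m` directions illuminate all orbits.
-/

namespace Pool.Agent.U194.Block

open Set Metric Filter Topology
open scoped InnerProductSpace

/-- The last element of the first run of a sign vector. -/
lemma exists_dict (m : ℕ) : ∃ d : (Fin (m + 1) → Bool) → Fin (m + 1),
    ∀ T : Finset (Fin (m + 1)), T.Nonempty → ∀ s : Fin (m + 1) → Bool,
      ∃ σ : Fin (m + 1) → Bool, (∀ i ∈ T, σ i = s i) ∧ d σ ∈ T := by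
  classical
  induction m with
  | zero =>
    refine ⟨fun _ => 0, fun T hT s => ⟨s, fun _ _ => rfl, ?_⟩⟩
    obtain ⟨i, hi⟩ := hT
    have h0 : i = 0 := Fin.fin_one_eq_zero i
    rwa [← h0]
  | succ m ih =>
    obtain ⟨d, hd⟩ := ih
    refine ⟨fun σ => if σ 0 = σ 1 then (d fun i => σ i.succ).succ else 0, ?_⟩
    intro T hT s
    set T' : Finset (Fin (m + 1)) := Finset.univ.filter fun i => i.succ ∈ T with hT'
    have hmem : ∀ i, i ∈ T' ↔ i.succ ∈ T := by
      intro i
      simp [hT']
    by_cases h0 : (0 : Fin (m + 2)) ∈ T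
    · by_cases h1 : (1 : Fin (m + 2)) ∈ T ∧ s 0 = s 1
      · have h2 : (0 : Fin (m + 1)) ∈ T' := (hmem 0).2 h1.1
        obtain ⟨τ, hτ1, hτ2⟩ := hd T' ⟨0, h2⟩ fun i => s i.succ
        refine ⟨Fin.cons (s 0) τ, ?_, ?_⟩
        · intro i hi
          refine Fin.cases ?_ (fun i hi => ?_) i hi
          · intro _
            simp
          · rw [Fin.cons_succ]
            exact hτ1 i ((hmem i).2 hi)
        · have e1 : (Fin.cons (s 0) τ : Fin (m + 2) → Bool) 0 = s 0 := rfl
          have e2 : (Fin.cons (s 0) τ : Fin (m + 2) → Bool) 1 = τ 0 := rfl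
          have e3 : (fun i : Fin (m + 1) => (Fin.cons (s 0) τ : Fin (m + 2) → Bool) i.succ) = τ := by
            funext i
            rw [Fin.cons_succ]
          have e4 : τ 0 = s 1 := hτ1 0 h2
          show (if (Fin.cons (s 0) τ : Fin (m + 2) → Bool) 0 =
            (Fin.cons (s 0) τ : Fin (m + 2) → Bool) 1 then
            (d fun i => (Fin.cons (s 0) τ : Fin (m + 2) → Bool) i.succ).succ else 0) ∈ T
          rw [e1, e2, e3, e4, if_pos h1.2]
          exact (hmem _).1 hτ2
      · -- we put `σ 1 ≠ σ 0`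
        refine ⟨fun i => if i = 1 then ! s 0 else s i, ?_, ?_⟩
        · intro i hi
          by_cases h2 : i = 1
          · subst h2
            simp only [if_true]
            have h3 : ¬ s 0 = s 1 := fun h => h1 ⟨hi, h⟩
            revert h3
            cases s 0 <;> cases s 1 <;> simp
          · simp only [if_neg h2]
        · have h3 : (0 : Fin (m + 2)) ≠ 1 := by
            intro h
            have := congrArg Fin.val h
            simp at this
          simp only [if_neg h3, if_true]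
          rw [if_neg]
          · exact h0
          · cases s 0 <;> simp
    · have h2 : T'.Nonempty := by
        obtain ⟨i, hi⟩ := hT
        refine Fin.cases (fun h => absurd h h0) (fun i hi => ⟨i, (hmem i).2 hi⟩) i hi
      obtain ⟨τ, hτ1, hτ2⟩ := hd T' h2 fun i => s i.succ
      refine ⟨Fin.cons (τ 0) τ, ?_, ?_⟩
      · intro i hi
        refine Fin.cases (fun h => absurd h h0) (fun i hi => ?_) i hi
        rw [Fin.cons_succ]
        exact hτ1 i ((hmem i).2 hi)
      · have e1 : (Fin.cons (τ 0) τ : Fin (m + 2) → Bool) 0 = τ 0 := rfl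
        have e2 : (Fin.cons (τ 0) τ : Fin (m + 2) → Bool) 1 = τ 0 := rfl
        have e3 : (fun i : Fin (m + 1) => (Fin.cons (τ 0) τ : Fin (m + 2) → Bool) i.succ) = τ := by
          funext i
          rw [Fin.cons_succ]
        show (if (Fin.cons (τ 0) τ : Fin (m + 2) → Bool) 0 =
          (Fin.cons (τ 0) τ : Fin (m + 2) → Bool) 1 then
          (d fun i => (Fin.cons (τ 0) τ : Fin (m + 2) → Bool) i.succ).succ else 0) ∈ T
        rw [e1, e2, e3, if_pos rfl]
        exact (hmem _).1 hτ2

lemma exists_dict' {α : Type*} [Fintype α] [Nonempty α] : ∃ d : (α → Bool) → α,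
    ∀ T : Finset α, T.Nonempty → ∀ s : α → Bool,
      ∃ σ : α → Bool, (∀ i ∈ T, σ i = s i) ∧ d σ ∈ T := by
  classical
  obtain ⟨m, hm⟩ : ∃ m, Fintype.card α = m + 1 := ⟨Fintype.card α - 1, by
    have := Fintype.card_pos (α := α)
    omega⟩
  set e : α ≃ Fin (m + 1) := (Fintype.equivFin α).trans (finCongr hm) with he
  obtain ⟨d, hd⟩ := exists_dict m
  refine ⟨fun σ => e.symm (d fun i => σ (e.symm i)), fun T hT s => ?_⟩
  obtain ⟨τ, hτ1, hτ2⟩ := hd (T.map e.toEmbedding) (hT.map) fun i => s (e.symm i)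
  refine ⟨fun i => τ (e i), ?_, ?_⟩
  · intro i hi
    have := hτ1 (e i) (Finset.mem_map_of_mem _ hi)
    rwa [Equiv.symm_apply_apply] at this
  · have h1 : (fun i => τ (e (e.symm i))) = τ := by
      funext i
      rw [Equiv.apply_symm_apply]
    simp only [h1]
    obtain ⟨a, ha, hae⟩ := Finset.mem_map.1 hτ2
    have : e.symm (d τ) = a := by
      rw [← hae]
      simp
    rwa [this]

variable {α : Type} [Fintype α]

/-- a signed permutation of the coordinates -/
noncomputable def sp (σ : Equiv.Perm α) (s : α → ℝ) (hs : ∀ i, s i * s i = 1) :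
    EuclideanSpace ℝ α ≃ₗᵢ[ℝ] EuclideanSpace ℝ α where
  toFun x := WithLp.toLp 2 fun i => s i * x (σ i)
  invFun y := WithLp.toLp 2 fun i => s (σ.symm i) * y (σ.symm i)
  left_inv x := by
    ext i
    show s (σ.symm i) * (s (σ.symm i) * x (σ (σ.symm i))) = x i
    rw [← mul_assoc, hs, one_mul, Equiv.apply_symm_apply]
  right_inv y := by
    ext i
    show s i * (s (σ.symm (σ i)) * y (σ.symm (σ i))) = y i
    rw [Equiv.symm_apply_apply, ← mul_assoc, hs, one_mul]
  map_add' x y := by
    ext i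
    show s i * (x (σ i) + y (σ i)) = s i * x (σ i) + s i * y (σ i)
    ring
  map_smul' c x := by
    ext i
    show s i * (c * x (σ i)) = c * (s i * x (σ i))
    ring
  norm_map' x := by
    have h1 : ∀ i, ‖s i * x (σ i)‖ ^ 2 = ‖x (σ i)‖ ^ 2 := by
      intro i
      rw [Real.norm_eq_abs, Real.norm_eq_abs, sq_abs, sq_abs, mul_pow, sq (s i), hs, one_mul]
    rw [EuclideanSpace.norm_eq, EuclideanSpace.norm_eq]
    congr 1
    show ∑ i, ‖s i * x (σ i)‖ ^ 2 = ∑ i, ‖x i‖ ^ 2
    rw [Finset.sum_congr rfl fun i _ => h1 i]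
    exact Equiv.sum_comp σ fun i => ‖x i‖ ^ 2

@[simp] lemma sp_apply (σ : Equiv.Perm α) (s : α → ℝ) (hs : ∀ i, s i * s i = 1)
    (x : EuclideanSpace ℝ α) (i : α) : sp σ s hs x i = s i * x (σ i) := rfl

/-- the set of the signed permutations -/
def SP (α : Type) [Fintype α] : Set (EuclideanSpace ℝ α ≃ₗᵢ[ℝ] EuclideanSpace ℝ α) :=
  {g | ∃ (σ : Equiv.Perm α) (s : α → ℝ), (∀ i, s i * s i = 1) ∧ ∀ x i, g x i = s i * x (σ i)}

lemma sp_mem (σ : Equiv.Perm α) (s : α → ℝ) (hs : ∀ i, s i * s i = 1) : sp σ s hs ∈ SP α :=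
  ⟨σ, s, hs, fun _ _ => rfl⟩

lemma SP_one : (1 : EuclideanSpace ℝ α ≃ₗᵢ[ℝ] EuclideanSpace ℝ α) ∈ SP α :=
  ⟨1, fun _ => 1, by simp, by simp⟩

lemma SP_mul : ∀ g ∈ SP α, ∀ h ∈ SP α, g * h ∈ SP α := by
  rintro g ⟨σ, s, hs, hg⟩ h ⟨τ, t, ht, hh⟩
  refine ⟨σ.trans τ, fun i => s i * t (σ i), ?_, ?_⟩
  · intro i
    calc s i * t (σ i) * (s i * t (σ i)) = (s i * s i) * (t (σ i) * t (σ i)) := by ring
      _ = 1 := by rw [hs, ht, one_mul]
  · intro x i
    show g (h x) i = _
    rw [hg, hh, Equiv.trans_apply]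
    ring

/-- the sign of a Boolean -/
def sgn (b : Bool) : ℝ := if b then 1 else -1

lemma sgn_mul (b : Bool) : sgn b * sgn b = 1 := by
  cases b <;> simp [sgn]

lemma abs_sgn (b : Bool) : |sgn b| = 1 := by
  cases b <;> simp [sgn]

/-- The signed permutations: the inequalities for a supporting functional. -/
lemma sp_flip {x y : EuclideanSpace ℝ α} (h : ∀ g ∈ SP α, ⟪y, g x⟫_ℝ ≤ ⟪y, x⟫_ℝ) (i : α) :
    0 ≤ y i * x i := by
  classical
  have h1 := h _ (sp_mem (1 : Equiv.Perm α) (fun j => if j = i then -1 else 1)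
    (by intro j; split_ifs <;> norm_num))
  rw [PiLp.inner_apply, PiLp.inner_apply] at h1
  have h2 : ∑ j, ⟪y j, x j⟫_ℝ = y i * x i + ∑ j ∈ Finset.univ.erase i, y j * x j := by
    rw [← Finset.add_sum_erase _ _ (Finset.mem_univ i)]
    congr 1
    · simp [mul_comm]
    · exact Finset.sum_congr rfl fun j _ => by simp [mul_comm]
  have h3 : ∑ j, ⟪y j, sp (1 : Equiv.Perm α) (fun j => if j = i then -1 else 1)
      (by intro j; split_ifs <;> norm_num) x j⟫_ℝ =
      -(y i * x i) + ∑ j ∈ Finset.univ.erase i, y j * x j := by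
    rw [← Finset.add_sum_erase _ _ (Finset.mem_univ i)]
    congr 1
    · simp [mul_comm]
    · refine Finset.sum_congr rfl fun j hj => ?_
      simp [Finset.ne_of_mem_erase hj, mul_comm]
  rw [h2, h3] at h1
  linarith

lemma sp_swap {x y : EuclideanSpace ℝ α} (h : ∀ g ∈ SP α, ⟪y, g x⟫_ℝ ≤ ⟪y, x⟫_ℝ) {d i : α}
    (hdi : d ≠ i) : 0 ≤ (|y d| - |y i|) * (|x d| - |x i|) := by
  classical
  -- the signs
  obtain ⟨a, ha1, ha2⟩ : ∃ a : ℝ, a * a = 1 ∧ y d * (a * x i) = |y d| * |x i| := by
    rcases abs_cases (y d * x i) with ⟨h1, _⟩ | ⟨h1, _⟩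
    · exact ⟨1, by norm_num, by rw [← abs_mul, h1]; ring⟩
    · exact ⟨-1, by norm_num, by rw [← abs_mul, h1]; ring⟩
  obtain ⟨b, hb1, hb2⟩ : ∃ b : ℝ, b * b = 1 ∧ y i * (b * x d) = |y i| * |x d| := by
    rcases abs_cases (y i * x d) with ⟨h1, _⟩ | ⟨h1, _⟩
    · exact ⟨1, by norm_num, by rw [← abs_mul, h1]; ring⟩
    · exact ⟨-1, by norm_num, by rw [← abs_mul, h1]; ring⟩
  set s : α → ℝ := fun j => if j = d then a else if j = i then b else 1 with hs
  have hss : ∀ j, s j * s j = 1 := by
    intro j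
    simp only [hs]
    split_ifs
    · exact ha1
    · exact hb1
    · norm_num
  have h1 := h _ (sp_mem (Equiv.swap d i) s hss)
  rw [PiLp.inner_apply, PiLp.inner_apply] at h1
  have hi : i ∈ Finset.univ.erase d := Finset.mem_erase.2 ⟨hdi.symm, Finset.mem_univ i⟩
  have h2 : ∑ j, ⟪y j, x j⟫_ℝ = y d * x d + (y i * x i +
      ∑ j ∈ (Finset.univ.erase d).erase i, y j * x j) := by
    rw [← Finset.add_sum_erase _ _ (Finset.mem_univ d), ← Finset.add_sum_erase _ _ hi]
    congr 1
    · simp [mul_comm]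
    · congr 1
      · simp [mul_comm]
      · exact Finset.sum_congr rfl fun j _ => by simp [mul_comm]
  have h3 : ∑ j, ⟪y j, sp (Equiv.swap d i) s hss x j⟫_ℝ = |y d| * |x i| + (|y i| * |x d| +
      ∑ j ∈ (Finset.univ.erase d).erase i, y j * x j) := by
    rw [← Finset.add_sum_erase _ _ (Finset.mem_univ d), ← Finset.add_sum_erase _ _ hi]
    congr 1
    · rw [← ha2]
      simp [hs, mul_comm]
    · congr 1
      · rw [← hb2]
        simp [hs, hdi.symm, mul_comm]
      · refine Finset.sum_congr rfl fun j hj => ?_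
        have hj1 : j ≠ i := Finset.ne_of_mem_erase hj
        have hj2 : j ≠ d := Finset.ne_of_mem_erase (Finset.mem_of_mem_erase hj)
        simp [hs, hj1, hj2, Equiv.swap_apply_of_ne_of_ne hj2 hj1, mul_comm]
  rw [h2, h3] at h1
  have h4 := sp_flip h d
  have h5 := sp_flip h i
  have h6 : |y d| * |x d| = y d * x d := by rw [← abs_mul, abs_of_nonneg h4]
  have h7 : |y i| * |x i| = y i * x i := by rw [← abs_mul, abs_of_nonneg h5]
  nlinarith

/-- the direction with the signs `-σ` and the large coordinate `d` -/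
noncomputable def wp (d : (α → Bool) → α) (σ : α → Bool) : EuclideanSpace ℝ α :=
  open Classical in
  WithLp.toLp 2 fun i => -(sgn (σ i) * if i = d σ then 1 else 1 / (Fintype.card α : ℝ))

/-- The signed permutations are illuminated by `2 ^ m` directions. -/
lemma sp_ill {d : (α → Bool) → α} (hd : ∀ T : Finset α, T.Nonempty → ∀ s : α → Bool,
      ∃ σ : α → Bool, (∀ i ∈ T, σ i = s i) ∧ d σ ∈ T) {x : EuclideanSpace ℝ α} (hx : x ≠ 0) :
    ∃ σ : α → Bool, ∃ ε : ℝ, 0 < ε ∧
      x + ε • wp d σ ∈ interior (convexHull ℝ {y | ∃ g ∈ SP α, g x = y}) := by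
  classical
  have hne : Nonempty α := by
    by_contra hcon
    rw [not_nonempty_iff] at hcon
    exact hx (Subsingleton.elim _ _)
  obtain ⟨i₀, -, hi₀⟩ := Finset.exists_max_image Finset.univ (fun i => |x i|) Finset.univ_nonempty
  set T : Finset α := Finset.univ.filter fun i => |x i| = |x i₀| with hT
  have hT0 : i₀ ∈ T := by simp [hT]
  have hx0 : 0 < |x i₀| := by
    rw [abs_pos]
    intro h0
    apply hx
    ext i
    have := hi₀ i (Finset.mem_univ i)
    rw [h0, abs_zero] at this
    exact abs_nonpos_iff.1 this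
  obtain ⟨σ, hσ1, hσ2⟩ := hd T ⟨i₀, hT0⟩ fun i => decide (0 ≤ x i)
  refine ⟨σ, ill_of_normal' (convex_convexHull ℝ _) (subset_convexHull ℝ _ ⟨1, SP_one, rfl⟩) ?_⟩
  intro f hf hmax
  obtain ⟨y, hy⟩ : ∃ y : EuclideanSpace ℝ α, ∀ z, f z = ⟪y, z⟫_ℝ :=
    ⟨(InnerProductSpace.toDual ℝ (EuclideanSpace ℝ α)).symm f, fun z => by
      rw [InnerProductSpace.toDual_symm_apply]⟩
  have hy0 : y ≠ 0 := by
    rintro rfl
    apply hf
    ext z
    rw [hy, inner_zero_left]
    rfl
  have hmax' : ∀ g ∈ SP α, ⟪y, g x⟫_ℝ ≤ ⟪y, x⟫_ℝ := by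
    intro g hg
    have := hmax (g x) (subset_convexHull ℝ _ ⟨g, hg, rfl⟩)
    rwa [hy, hy] at this
  set m : ℝ := (Fintype.card α : ℝ) with hm
  have hm0 : 0 < m := by
    rw [hm]
    exact_mod_cast Fintype.card_pos (α := α)
  -- signs on `T`
  have hsT : ∀ i ∈ T, sgn (σ i) * y i = |y i| := by
    intro i hi
    have h1 : |x i| = |x i₀| := (Finset.mem_filter.1 hi).2
    have h2 : x i ≠ 0 := by
      intro h
      rw [h, abs_zero] at h1
      linarith
    have h3 := sp_flip hmax' i
    rw [hσ1 i hi]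
    by_cases h4 : 0 ≤ x i
    · have h5 : 0 < x i := lt_of_le_of_ne h4 (Ne.symm h2)
      have h6 : 0 ≤ y i := by
        by_contra hcon
        push Not at hcon
        have := mul_neg_of_neg_of_pos hcon h5
        linarith
      rw [abs_of_nonneg h6]
      simp [sgn, h4]
    · push Not at h4
      have h6 : y i ≤ 0 := by
        by_contra hcon
        push Not at hcon
        have := mul_neg_of_pos_of_neg hcon h4
        linarith
      rw [abs_of_nonpos h6]
      simp [sgn, not_le.2 h4]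
  set D : α := d σ with hD
  have hDT : D ∈ T := hσ2
  have hout : ∀ i, i ∉ T → |y i| ≤ |y D| := by
    intro i hi
    have h1 : |x D| = |x i₀| := (Finset.mem_filter.1 hDT).2
    have h2 : |x i| < |x D| := by
      rw [h1]
      refine lt_of_le_of_ne (hi₀ i (Finset.mem_univ i)) fun h => hi ?_
      exact Finset.mem_filter.2 ⟨Finset.mem_univ i, h⟩
    have hne : D ≠ i := by
      rintro rfl
      exact lt_irrefl _ h2
    have h3 := sp_swap hmax' hne
    by_contra hcon
    push Not at hcon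
    have := mul_neg_of_neg_of_pos (sub_neg.2 hcon) (sub_pos.2 h2)
    linarith
  -- the value
  have hval : f (wp d σ) = -(|y D| + ∑ i ∈ Finset.univ.erase D, 1 / m * (sgn (σ i) * y i)) := by
    rw [hy, PiLp.inner_apply, ← Finset.add_sum_erase _ _ (Finset.mem_univ D), neg_add,
      ← Finset.sum_neg_distrib]
    congr 1
    · rw [← hsT D hDT]
      simp [wp, ← hD, mul_comm]
    · refine Finset.sum_congr rfl fun i hi => ?_
      have hiD : i ≠ D := Finset.ne_of_mem_erase hi
      simp only [wp, RCLike.inner_apply, conj_trivial]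
      rw [if_neg (by rw [← hD]; exact hiD), ← hm]
      ring
  rw [hval, neg_lt_zero]
  -- all terms are at least `- |y D| / m`
  have hterm : ∀ i ∈ Finset.univ.erase D, -(1 / m * |y D|) ≤ 1 / m * (sgn (σ i) * y i) := by
    intro i _
    by_cases hi : i ∈ T
    · rw [hsT i hi]
      have h1 : 0 ≤ 1 / m * |y i| := by positivity
      have h2 : 0 ≤ 1 / m * |y D| := by positivity
      linarith
    · have h1 : -|y i| ≤ sgn (σ i) * y i := by
        have := neg_abs_le (sgn (σ i) * y i)
        rwa [abs_mul, abs_sgn, one_mul] at this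
      have h2 := hout i hi
      have h3 : -(|y D|) ≤ sgn (σ i) * y i := by linarith
      have h4 := mul_le_mul_of_nonneg_left h3 (by positivity : 0 ≤ 1 / m)
      linarith
  have hcard : ((Finset.univ.erase D : Finset α).card : ℝ) = m - 1 := by
    rw [Finset.card_erase_of_mem (Finset.mem_univ D), Finset.card_univ, hm,
      Nat.cast_sub Fintype.card_pos, Nat.cast_one]
  rcases eq_or_lt_of_le (abs_nonneg (y D)) with h0 | h0
  · -- `y D = 0`: all terms are nonnegative and one is positive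
    rw [← h0, zero_add]
    have hterm0 : ∀ i ∈ Finset.univ.erase D, 0 ≤ 1 / m * (sgn (σ i) * y i) := by
      intro i hi
      have := hterm i hi
      rwa [← h0, mul_zero, neg_zero] at this
    obtain ⟨i, hi⟩ : ∃ i, y i ≠ 0 := by
      by_contra hcon
      push Not at hcon
      exact hy0 (by ext i; exact hcon i)
    have hiT : i ∈ T := by
      by_contra hcon
      have := hout i hcon
      rw [← h0] at this
      exact hi (abs_nonpos_iff.1 this)
    have hiD : i ≠ D := by
      rintro rfl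
      exact hi (abs_eq_zero.1 h0.symm)
    refine Finset.sum_pos' hterm0 ⟨i, Finset.mem_erase.2 ⟨hiD, Finset.mem_univ i⟩, ?_⟩
    rw [hsT i hiT]
    have : 0 < |y i| := abs_pos.2 hi
    positivity
  · have h1 := Finset.sum_le_sum hterm
    rw [Finset.sum_const, nsmul_eq_mul, hcard] at h1
    have h2 : (m - 1) * -(1 / m * |y D|) = -|y D| + |y D| / m := by
      field_simp
      ring
    have h3 : 0 < |y D| / m := by positivity
    linarith

end Pool.Agent.U194.Block
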