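import Pool.Agent.U194.Block.Group

set_option autoImplicit false

/-!
Rotations of the plane of order `k`: the `N`-th roots of unity illuminate all orbits if
`1 / k + 1 / N < 1 / 2`.
-/

namespace Pool.Agent.U194.Block

open Set Metric Filter Topology
open scoped InnerProductSpace

lemma inner_eq (a b : ℂ) : ⟪a, b⟫_ℝ = a.re * b.re + a.im * b.im := by
  rw [Complex.inner]
  simp [Complex.mul_re]
  ring

/-- the rotation by the angle `φ` -/
noncomputable def rot (φ : ℝ) : ℂ ≃ₗᵢ[ℝ] ℂ := rotation (Circle.exp φ)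

lemma rot_apply (φ : ℝ) (z : ℂ) : rot φ z = Complex.exp (φ * Complex.I) * z := by
  rw [rot, rotation_apply, Circle.coe_exp]

lemma rot_re (φ : ℝ) (z : ℂ) : (rot φ z).re = Real.cos φ * z.re - Real.sin φ * z.im := by
  rw [rot_apply, Complex.mul_re, Complex.exp_ofReal_mul_I_re, Complex.exp_ofReal_mul_I_im]

lemma rot_im (φ : ℝ) (z : ℂ) : (rot φ z).im = Real.cos φ * z.im + Real.sin φ * z.re := by
  rw [rot_apply, Complex.mul_im, Complex.exp_ofReal_mul_I_re, Complex.exp_ofReal_mul_I_im]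

/-- The real inequality. -/
lemma key_ineq {k N : ℕ} (hk : 0 < k) (hN : 0 < N) (h : (1 : ℝ) / k + 1 / N < 1 / 2) {c s δ : ℝ}
    (hc : 0 < c) (h1 : |s| * Real.sin (2 * Real.pi / k) ≤ c * (1 - Real.cos (2 * Real.pi / k)))
    (hδ : |δ| ≤ Real.pi / N) : |s| * |Real.sin δ| < c * Real.cos δ := by
  have hk' : (0 : ℝ) < k := by exact_mod_cast hk
  have hN' : (0 : ℝ) < N := by exact_mod_cast hN
  have hpi := Real.pi_pos
  have hk2 : (1 : ℝ) / k < 1 / 2 := by
    have : (0 : ℝ) < 1 / N := by positivity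
    linarith
  set a : ℝ := Real.pi / k with ha
  have ha0 : 0 < a := by positivity
  have ha1 : a < Real.pi / 2 := by
    have : a = Real.pi * (1 / k) := by rw [ha]; ring
    rw [this]
    nlinarith
  have e1 : 2 * Real.pi / k = 2 * a := by rw [ha]; ring
  have hs : 0 < Real.sin a := Real.sin_pos_of_pos_of_lt_pi ha0 (by linarith)
  have hcos : 0 < Real.cos a := Real.cos_pos_of_mem_Ioo ⟨by linarith, ha1⟩
  rw [e1, Real.sin_two_mul, Real.cos_two_mul, Real.cos_sq'] at h1
  have h2 : |s| * Real.cos a ≤ c * Real.sin a := by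
    have : (|s| * Real.cos a) * (2 * Real.sin a) ≤ (c * Real.sin a) * (2 * Real.sin a) := by
      nlinarith
    exact le_of_mul_le_mul_right this (by positivity)
  have hδN : |δ| + a < Real.pi / 2 := by
    have : |δ| + a ≤ Real.pi * (1 / k + 1 / N) := by
      rw [ha]
      have : Real.pi * (1 / (k : ℝ) + 1 / N) = Real.pi / k + Real.pi / N := by ring
      rw [this]
      linarith
    nlinarith
  have h3 : 0 < Real.cos (|δ| + a) :=
    Real.cos_pos_of_mem_Ioo ⟨by have := abs_nonneg δ; linarith, hδN⟩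
  rw [Real.cos_add, Real.cos_abs] at h3
  have hsin : Real.sin |δ| = |Real.sin δ| := by
    rcases abs_cases δ with ⟨h4, h5⟩ | ⟨h4, h5⟩
    · rw [h4, abs_of_nonneg]
      refine Real.sin_nonneg_of_nonneg_of_le_pi h5 ?_
      rw [h4] at hδN
      linarith
    · rw [h4, Real.sin_neg, abs_of_nonpos]
      rw [h4] at hδN
      have := Real.sin_nonneg_of_nonneg_of_le_pi (x := -δ) (by linarith) (by linarith)
      rw [Real.sin_neg] at this
      linarith
  rw [hsin] at h3
  have h5 : (|s| * |Real.sin δ|) * Real.cos a < (c * Real.cos δ) * Real.cos a := by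
    have h6 := mul_le_mul_of_nonneg_right h2 (abs_nonneg (Real.sin δ))
    nlinarith
  exact lt_of_mul_lt_mul_right h5 hcos.le

/-- Rounding of the argument. -/
lemma exists_round {N : ℕ} (hN : 0 < N) (θ : ℝ) : ∃ (n : Fin N) (δ : ℝ), |δ| ≤ Real.pi / N ∧
    Complex.exp ((2 * Real.pi * n / N : ℝ) * Complex.I) =
      Complex.exp ((θ + δ : ℝ) * Complex.I) := by
  have hN' : (0 : ℝ) < N := by exact_mod_cast hN
  have hpi := Real.pi_pos
  set q : ℤ := round (θ * N / (2 * Real.pi)) with hq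
  have h1 : |θ * N / (2 * Real.pi) - q| ≤ 1 / 2 := abs_sub_round _
  have hNz : (0 : ℤ) < N := by exact_mod_cast hN
  refine ⟨⟨(q % N).toNat, ?_⟩, 2 * Real.pi * q / N - θ, ?_, ?_⟩
  · have := Int.emod_lt_of_pos q hNz
    omega
  · have h2 : 2 * Real.pi * q / N - θ = -((θ * N / (2 * Real.pi) - q) * (2 * Real.pi / N)) := by
      field_simp
      ring
    rw [h2, abs_neg, abs_mul, abs_of_pos (by positivity : 0 < 2 * Real.pi / N)]
    calc |θ * N / (2 * Real.pi) - q| * (2 * Real.pi / N) ≤ 1 / 2 * (2 * Real.pi / N) :=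
          mul_le_mul_of_nonneg_right h1 (by positivity)
      _ = Real.pi / N := by ring
  · have h3 : ((q % N).toNat : ℤ) = q % N := Int.toNat_of_nonneg (Int.emod_nonneg _ hNz.ne')
    have h4 : (q : ℤ) = N * (q / N) + q % N := (Int.mul_ediv_add_emod q N).symm
    have h5 : (((q % N).toNat : ℕ) : ℝ) = q - N * ((q / N : ℤ) : ℝ) := by
      have h6 : (((q % N).toNat : ℕ) : ℝ) = (((q % N).toNat : ℤ) : ℝ) := by push_cast; rfl
      rw [h6, h3]
      have h7 : q % N = q - N * (q / N) := by omega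
      rw [h7]
      push_cast
      ring
    rw [Complex.exp_eq_exp_iff_exists_int]
    refine ⟨-(q / N), ?_⟩
    have h8 : θ + (2 * Real.pi * q / N - θ) = 2 * Real.pi * q / N := by ring
    rw [h8]
    show ((2 * Real.pi * (((q % N).toNat : ℕ) : ℝ) / N : ℝ) : ℂ) * Complex.I = _
    rw [h5]
    have hNc : (N : ℂ) ≠ 0 := by exact_mod_cast hN.ne'
    push_cast
    field_simp
    ring

/-- the `N`-th roots of unity -/
noncomputable def wr (N : ℕ) (n : Fin N) : ℂ := Complex.exp ((2 * Real.pi * n / N : ℝ) * Complex.I)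

/-- The roots of unity illuminate the orbits. -/
lemma rot_ill {k N : ℕ} (hk : 0 < k) (hN : 0 < N) (h : (1 : ℝ) / k + 1 / N < 1 / 2)
    {G : Set (ℂ ≃ₗᵢ[ℝ] ℂ)} (h1 : 1 ∈ G) (hp : rot (2 * Real.pi / k) ∈ G)
    (hm : rot (-(2 * Real.pi / k)) ∈ G) {x : ℂ} (hx : x ≠ 0) : ∃ n : Fin N, ∃ ε : ℝ, 0 < ε ∧
      x + ε • wr N n ∈ interior (convexHull ℝ {y | ∃ g ∈ G, g x = y}) := by
  set φ : ℝ := 2 * Real.pi / k with hφ
  obtain ⟨n, δ, hδ, hn⟩ := exists_round hN (Complex.arg (-x))
  refine ⟨n, ill_of_normal' (convex_convexHull ℝ _) (subset_convexHull ℝ _ ⟨1, h1, rfl⟩) ?_⟩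
  intro f hf hmax
  obtain ⟨y, hy⟩ : ∃ y : ℂ, ∀ z, f z = ⟪y, z⟫_ℝ :=
    ⟨(InnerProductSpace.toDual ℝ ℂ).symm f, fun z => by
      rw [InnerProductSpace.toDual_symm_apply]⟩
  have hy0 : y ≠ 0 := by
    rintro rfl
    apply hf
    ext z
    rw [hy, inner_zero_left]
    rfl
  have hmax' : ∀ g ∈ G, ⟪y, g x⟫_ℝ ≤ ⟪y, x⟫_ℝ := by
    intro g hg
    have := hmax (g x) (subset_convexHull ℝ _ ⟨g, hg, rfl⟩)
    rwa [hy, hy] at this
  have g1 := hmax' _ hp
  have g2 := hmax' _ hm
  rw [inner_eq, inner_eq, rot_re, rot_im] at g1 g2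
  rw [Real.cos_neg, Real.sin_neg] at g2
  set c : ℝ := y.re * x.re + y.im * x.im with hc
  set s : ℝ := x.re * y.im - x.im * y.re with hs
  have g3 : s * Real.sin φ ≤ c * (1 - Real.cos φ) := by
    rw [hc, hs]
    nlinarith
  have g4 : -s * Real.sin φ ≤ c * (1 - Real.cos φ) := by
    rw [hc, hs]
    nlinarith
  have hk' : (0 : ℝ) < k := by exact_mod_cast hk
  have hN' : (0 : ℝ) < N := by exact_mod_cast hN
  have hpi := Real.pi_pos
  have hk2 : (1 : ℝ) / k < 1 / 2 := by
    have : (0 : ℝ) < 1 / N := by positivity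
    linarith
  have hφ0 : 0 < φ := by positivity
  have hφ1 : φ < Real.pi := by
    have : φ = 2 * Real.pi * (1 / k) := by rw [hφ]; ring
    rw [this]
    nlinarith
  have hsin : 0 < Real.sin φ := Real.sin_pos_of_pos_of_lt_pi hφ0 hφ1
  have hcos : Real.cos φ < 1 := by
    have := Real.cos_lt_cos_of_nonneg_of_le_pi le_rfl hφ1.le hφ0
    rwa [Real.cos_zero] at this
  have g5 : |s| * Real.sin φ ≤ c * (1 - Real.cos φ) := by
    rcases abs_cases s with ⟨h4, _⟩ | ⟨h4, _⟩ <;> rw [h4] <;> assumption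
  have hc0 : 0 ≤ c := by
    by_contra hcon
    push Not at hcon
    have := abs_nonneg s
    nlinarith [mul_nonneg this hsin.le, mul_pos_of_neg_of_neg hcon (by linarith : Real.cos φ - 1 < 0)]
  have hnx : 0 < x.re * x.re + x.im * x.im := by
    have := Complex.normSq_pos.2 hx
    rwa [Complex.normSq_apply] at this
  have hny : 0 < y.re * y.re + y.im * y.im := by
    have := Complex.normSq_pos.2 hy0
    rwa [Complex.normSq_apply] at this
  have hcs : c * c + s * s = (x.re * x.re + x.im * x.im) * (y.re * y.re + y.im * y.im) := by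
    rw [hc, hs]
    ring
  have hc1 : 0 < c := by
    refine lt_of_le_of_ne hc0 fun h0 => ?_
    rw [← h0, zero_mul] at g5
    have h5 : |s| = 0 := by
      have := abs_nonneg s
      by_contra hne
      have h6 : 0 < |s| := lt_of_le_of_ne this (Ne.symm hne)
      have := mul_pos h6 hsin
      linarith
    rw [abs_eq_zero] at h5
    rw [← h0, h5] at hcs
    have := mul_pos hnx hny
    linarith
  have hkey := key_ineq hk hN h hc1 g5 hδ
  -- the direction
  have hw : wr N n = Complex.exp (Complex.arg (-x) * Complex.I) * Complex.exp (δ * Complex.I) := by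
    rw [wr, hn, ← Complex.exp_add]
    congr 1
    push_cast
    ring
  have hx2 : (‖x‖ : ℂ) * Complex.exp (Complex.arg (-x) * Complex.I) = -x := by
    have := Complex.norm_mul_exp_arg_mul_I (-x)
    rwa [norm_neg] at this
  have hnorm : 0 < ‖x‖ := norm_pos_iff.2 hx
  have hw2 : (‖x‖ : ℂ) * wr N n = -x * Complex.exp (δ * Complex.I) := by
    rw [hw, ← mul_assoc, hx2]
  have hfin : ‖x‖ * f (wr N n) = -(c * Real.cos δ + s * Real.sin δ) := by
    have e1 : ‖x‖ * f (wr N n) = f (‖x‖ • wr N n) := by rw [map_smul, smul_eq_mul]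
    have e2 : ‖x‖ • wr N n = -x * Complex.exp (δ * Complex.I) := by
      rw [Complex.real_smul, hw2]
    rw [e1, e2, hy, inner_eq, Complex.mul_re, Complex.mul_im, Complex.exp_ofReal_mul_I_re,
      Complex.exp_ofReal_mul_I_im, Complex.neg_re, Complex.neg_im, hc, hs]
    ring
  have h7 : -(c * Real.cos δ + s * Real.sin δ) < 0 := by
    have h8 : -(s * Real.sin δ) ≤ |s| * |Real.sin δ| := by
      rw [← abs_mul]
      exact neg_le_abs _
    linarith
  rw [← hfin] at h7
  by_contra hcon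
  push Not at hcon
  have := mul_nonneg hnorm.le hcon
  linarith

end Pool.Agent.U194.Block
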