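import Pool.Agent.U194.Block.Cover
import Pool.Agent.U194.Block.Patterns
import Pool.Agent.U194.Block.Rot
import Pool.Agent.U194.Block.Perm

set_option autoImplicit false

/-!
The covering theorems.
-/

namespace Pool.Agent.U194.Block

open Set Metric Filter Topology
open scoped InnerProductSpace

section

variable {ι : Type*} [Fintype ι] [DecidableEq ι]

theorem cover_es {V : ι → Type*} [∀ j, NormedAddCommGroup (V j)]
    [∀ j, NormedSpace ℝ (V j)] [∀ j, ProperSpace (V j)] [∀ j, Nontrivial (V j)]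
    {Q : ∀ j, V j → Set (V j)} {N : ι → ℕ} (w : ∀ j, Fin (N j) → V j)
    (hG : ∀ j, ∃ D : Finset (V j), (D : Set (V j)) ⊆ Set.range (w j) ∧ Rule (Q j) D)
    {K : Set (∀ j, V j)} (hK : Convex ℝ K) (hKc : IsCompact K) (hKi : (interior K).Nonempty)
    (hinv : ∀ x ∈ K, ∀ j, ∀ q ∈ Q j (x j), Function.update x j q ∈ K) :
    ∃ m ≤ Fintype.card ι, ∃ T : Finset (∀ j, V j),
      T.card ≤ ∑ S ∈ Finset.powersetCard m Finset.univ, ∏ j ∈ S, N j ∧
      K ⊆ ⋃ t ∈ T, (fun x => t + x) '' interior K := by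
  classical
  choose D hD hG using hG
  have hN : ∀ j, 0 < N j := by
    intro j
    obtain ⟨v, hv⟩ := exists_ne (0 : V j)
    obtain ⟨u, hu, -⟩ := (hG j).ill v hv
    obtain ⟨i, -⟩ := hD j (Finset.mem_coe.2 hu)
    exact i.pos
  obtain ⟨m, hm, c, b, hcb⟩ := exists_serve hN
  obtain ⟨T, hT1, hT2⟩ := cover_served hG hK hKc hKi hinv (fun μ j => w j (c μ j)) b (by
    intro S c₀ hc₀
    choose e he using fun j => hD j (Finset.mem_coe.2 (hc₀ j))
    obtain ⟨μ, h1, h2⟩ := hcb S e
    exact ⟨μ, fun i hi => by rw [h1 i hi, he], h2⟩)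
  refine ⟨m, hm, T, ?_, hT2⟩
  rwa [card_lev] at hT1

/-- The version for sets of maps. -/
theorem cover_maps {V : ι → Type*} [∀ j, NormedAddCommGroup (V j)]
    [∀ j, NormedSpace ℝ (V j)] [∀ j, ProperSpace (V j)] [∀ j, Nontrivial (V j)]
    {G : ∀ j, Set (V j → V j)} {N : ι → ℕ} (w : ∀ j, Fin (N j) → V j)
    (hG : ∀ j, ∃ D : Finset (V j), (D : Set (V j)) ⊆ Set.range (w j) ∧ Good (G j) D)
    {K : Set (∀ j, V j)} (hK : Convex ℝ K) (hKc : IsCompact K) (hKi : (interior K).Nonempty)
    (hinv : ∀ x ∈ K, ∀ j, ∀ g ∈ G j, Function.update x j (g (x j)) ∈ K) :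
    ∃ m ≤ Fintype.card ι, ∃ T : Finset (∀ j, V j),
      T.card ≤ ∑ S ∈ Finset.powersetCard m Finset.univ, ∏ j ∈ S, N j ∧
      K ⊆ ⋃ t ∈ T, (fun x => t + x) '' interior K :=
  cover_es (Q := fun j => P (G j)) w
    (fun j => by
      obtain ⟨D, h1, h2⟩ := hG j
      exact ⟨D, h1, h2.rule⟩) hK hKc hKi (hull_inv hK hKc.isClosed hinv)

/-- The rule of a gauge. -/
lemma gauge_rule {E : Type*} [NormedAddCommGroup E] [NormedSpace ℝ E] {C : Set E}
    (hC : Convex ℝ C) (hCk : IsCompact C) (hC0 : (0 : E) ∈ interior C) {T : Finset E}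
    (hT : C ⊆ ⋃ t ∈ T, (fun x => t + x) '' interior C) [DecidableEq E] :
    Rule (fun x => {y | gauge C y ≤ gauge C x}) (T.image fun t => -t) := by
  have hn : C ∈ 𝓝 (0 : E) := mem_interior_iff_mem_nhds.1 hC0
  have habs : Absorbent ℝ C := absorbent_nhds_zero hn
  have hcont : Continuous (gauge C) := continuous_gauge hC hn
  have hpos : ∀ x : E, x ≠ 0 → 0 < gauge C x := fun x hx =>
    (gauge_pos habs (hCk.isVonNBounded ℝ)).2 hx
  have hint : ∀ x y : E, gauge C y < gauge C x → y ∈ interior {y | gauge C y ≤ gauge C x} := by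
    intro x y hy
    refine mem_interior.2 ⟨{y | gauge C y < gauge C x}, ?_,
      isOpen_lt hcont continuous_const, hy⟩
    intro z hz
    have hz' : gauge C z < gauge C x := hz
    exact hz'.le
  refine ⟨?_, ?_, ?_, ?_, ?_⟩
  · intro x
    exact hC.setOfPred_gauge_le (interior_subset hC0) habs _
  · intro x
    exact le_refl (gauge C x)
  · intro x hx
    refine hint x 0 ?_
    rw [gauge_zero]
    exact hpos x hx
  · intro x hx y hy
    have hlt : gauge C y < gauge C x := by
      have hc : Tendsto (fun s : ℝ => s • y) (𝓝[>] 1) (𝓝 y) := by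
        have h1 : Tendsto (fun s : ℝ => s • y) (𝓝 1) (𝓝 ((1 : ℝ) • y)) :=
          (continuous_id.smul continuous_const).tendsto 1
        rw [one_smul] at h1
        exact h1.mono_left nhdsWithin_le_nhds
      obtain ⟨s, hs1, hs2⟩ := ((hc.eventually (isOpen_interior.mem_nhds hy)).and
        self_mem_nhdsWithin).exists
      have hs : (1 : ℝ) < s := hs2
      have h2 : gauge C (s • y) ≤ gauge C x := by
        have h3 := interior_subset (s := {y | gauge C y ≤ gauge C x}) hs1
        exact h3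
      rw [gauge_smul_of_nonneg (by linarith), smul_eq_mul] at h2
      have h3 := hpos x hx
      have h4 : 0 ≤ gauge C y := gauge_nonneg _
      by_contra hcon
      push Not at hcon
      have h5 : 0 < gauge C y := h3.trans_le hcon
      nlinarith
    have ho : IsOpen {p : E × E | gauge C p.2 < gauge C p.1} :=
      isOpen_lt (hcont.comp continuous_snd) (hcont.comp continuous_fst)
    refine mem_of_superset (ho.mem_nhds (show (x, y) ∈ {p : E × E | gauge C p.2 < gauge C p.1}
      from hlt)) ?_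
    intro p hp
    have hp' : gauge C p.2 < gauge C p.1 := hp
    exact hp'.le
  · intro x hx
    have hc := hpos x hx
    have h1 : (gauge C x)⁻¹ • x ∈ C := by
      have h0 : (gauge C x)⁻¹ • x ∈ closure C := by
        rw [← gauge_le_one_iff_mem_closure hC hn,
          gauge_smul_of_nonneg (inv_nonneg.2 hc.le), smul_eq_mul, inv_mul_cancel₀ hc.ne']
      rwa [hCk.isClosed.closure_eq] at h0
    obtain ⟨t, ht, z, hz, hzt⟩ := mem_iUnion₂.1 (hT h1)
    refine ⟨-t, Finset.mem_image_of_mem _ ht, gauge C x, hc, hint x _ ?_⟩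
    have h2 : x + gauge C x • -t = gauge C x • z := by
      have h3 : (gauge C x)⁻¹ • x = t + z := hzt.symm
      have h4 : x = gauge C x • (t + z) := by
        rw [← h3, smul_smul, mul_inv_cancel₀ hc.ne', one_smul]
      nth_rewrite 1 [h4]
      rw [smul_add, smul_neg]
      abel
    rw [h2, gauge_smul_of_nonneg hc.le, smul_eq_mul]
    have h3 : gauge C z < 1 := interior_subset_gauge_lt_one C hz
    nlinarith

lemma es_cast (N : ι → ℕ) (m : ℕ) : es (fun j => (N j : ℝ)) Finset.univ m =
    ((∑ S ∈ Finset.powersetCard m Finset.univ, ∏ j ∈ S, N j : ℕ) : ℝ) := by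
  rw [es]
  push_cast
  rfl

/-- Kraft's inequality: the last coefficient is the largest one. -/
lemma kraft_le {N : ι → ℕ} (hN : ∀ j, 0 < N j) (hsum : ∑ j, (1 : ℝ) / N j ≤ 1) {m : ℕ}
    (hm : m ≤ Fintype.card ι) :
    ∑ S ∈ Finset.powersetCard m Finset.univ, ∏ j ∈ S, N j ≤ ∏ j, N j := by
  classical
  have hN' : ∀ j, (0 : ℝ) < N j := fun j => by exact_mod_cast hN j
  set e : ℕ → ℝ := es (fun j => (N j : ℝ)) Finset.univ with he
  set r : ℕ := Fintype.card ι with hr
  have hrc : (Finset.univ : Finset ι).card = r := Finset.card_univ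
  have hepos : ∀ k ≤ r, 0 < e k := fun k hk => es_pos hN' (by rwa [hrc])
  have htop : e r = ∏ j, (N j : ℝ) := by
    rw [he, es, ← hrc, Finset.powersetCard_self, Finset.sum_singleton]
  have hstep : ∀ k, k + 1 ≤ r → e k ≤ e (k + 1) := by
    -- the last step
    have hlast : ∀ k, k + 1 = r → e k ≤ e (k + 1) := by
      intro k hk
      have h1 : ∀ j, be (fun j => (N j : ℝ)) k (Finset.univ.erase j) j = e (k + 1) / N j := by
        intro j
        have h2 := be_row (N := fun j => (N j : ℝ)) (k := k) (S := Finset.univ.erase j) (by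
          rw [Finset.card_erase_of_mem (Finset.mem_univ j), hrc]
          omega)
        have h3 : (Finset.univ.erase j : Finset ι)ᶜ = {j} := by
          ext i
          simp
        rw [h3, Finset.sum_singleton] at h2
        rw [he, ← h2]
        have := (hN' j).ne'
        field_simp
      have h4 := be_col (N := fun j => (N j : ℝ)) (k := k) (T := Finset.univ) (by
        rw [hrc]
        omega)
      rw [Finset.sum_congr rfl fun j _ => h1 j] at h4
      rw [he, ← h4]
      calc ∑ j, e (k + 1) / (N j : ℝ) = e (k + 1) * ∑ j, (1 : ℝ) / N j := by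
            rw [Finset.mul_sum]
            exact Finset.sum_congr rfl fun j _ => by ring
        _ ≤ e (k + 1) * 1 := mul_le_mul_of_nonneg_left hsum (hepos _ (by omega)).le
        _ = e (k + 1) := mul_one _
    intro k hk
    rcases Nat.eq_or_lt_of_le hk with h | h
    · exact hlast k h
    · obtain ⟨i, hi⟩ : ∃ i, r = i + 2 := ⟨r - 2, by omega⟩
      have h1 := es_lc (N := fun j => (N j : ℝ)) (fun j => (hN' j).le) Finset.univ k i (by omega)
      have h2 := hlast (i + 1) (by omega)
      have h3 : 0 < e (i + 2) := hepos _ (by omega)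
      have h4 : e k * e (i + 2) ≤ e (k + 1) * e (i + 2) :=
        h1.trans (mul_le_mul_of_nonneg_left h2 (hepos _ (by omega)).le)
      exact le_of_mul_le_mul_right h4 h3
  have hmono : ∀ n, m + n ≤ r → e m ≤ e (m + n) := by
    intro n
    induction n with
    | zero => exact fun _ => le_rfl
    | succ n ih =>
      intro h
      exact (ih (by omega)).trans (hstep (m + n) (by omega))
  have h1 := hmono (r - m) (by omega)
  rw [Nat.add_sub_cancel' hm, htop, he, es_cast] at h1
  exact_mod_cast h1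

end

/-! ### Rotations -/

lemma rot_mul (a b : ℝ) : rot a * rot b = rot (a + b) := by
  rw [rot, rot, rot, Circle.exp_add, map_mul]

lemma rot_zero : rot 0 = 1 := by
  rw [rot, Circle.exp_zero, map_one]

lemma rot_period (a : ℝ) (n : ℤ) : rot (a + 2 * Real.pi * n) = rot a := by
  ext z
  rw [rot_apply, rot_apply]
  congr 1
  rw [Complex.exp_eq_exp_iff_exists_int]
  exact ⟨n, by push_cast; ring⟩

/-- the group of the rotations by the multiples of `2 π / k` -/
noncomputable def RG (k : ℕ) : Set (ℂ ≃ₗᵢ[ℝ] ℂ) := Set.range fun n : ℤ => rot (2 * Real.pi / k * n)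

lemma RG_one (k : ℕ) : 1 ∈ RG k := ⟨0, by simp [rot_zero]⟩

lemma RG_mul (k : ℕ) : ∀ g ∈ RG k, ∀ h ∈ RG k, g * h ∈ RG k := by
  rintro g ⟨n, rfl⟩ h ⟨m, rfl⟩
  refine ⟨n + m, ?_⟩
  show rot _ = rot _ * rot _
  rw [rot_mul]
  congr 1
  push_cast
  ring

lemma RG_good {k N : ℕ} (hk : 0 < k) (hN : 0 < N) (h : (1 : ℝ) / k + 1 / N < 1 / 2) :
    Good (maps (RG k)) (Finset.univ.image (wr N)) := by
  refine good_of_group (RG_one k) (RG_mul k) fun x hx => ?_
  obtain ⟨n, ε, hε, hn⟩ := rot_ill hk hN h (RG_one k) (G := RG k) ⟨1, by simp⟩ ⟨-1, by simp⟩ hx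
  exact ⟨wr N n, Finset.mem_image_of_mem _ (Finset.mem_univ n), ε, hε, hn⟩

lemma RG_inv {r : ℕ} {K : Set (Fin r → ℂ)} {j : Fin r} {k : ℕ} (hk : 0 < k)
    (h : ∀ x ∈ K, Function.update x j (Complex.exp (2 * Real.pi * Complex.I / k) * x j) ∈ K) :
    ∀ x ∈ K, ∀ g ∈ maps (RG k), Function.update x j (g (x j)) ∈ K := by
  have hk' : (k : ℝ) ≠ 0 := by exact_mod_cast hk.ne'
  have h1 : ∀ x ∈ K, Function.update x j (rot (2 * Real.pi / k) (x j)) ∈ K := by
    intro x hx
    have := h x hx
    rw [rot_apply]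
    convert this using 4
    push_cast
    ring
  have h2 : ∀ n : ℕ, ∀ x ∈ K, Function.update x j (rot (2 * Real.pi / k * n) (x j)) ∈ K := by
    intro n
    induction n with
    | zero =>
      intro x hx
      have e : rot (2 * Real.pi / k * (0 : ℕ)) = 1 := by simp [rot_zero]
      rw [e]
      show Function.update x j (x j) ∈ K
      rwa [Function.update_eq_self]
    | succ n ih =>
      intro x hx
      have h3 := h1 _ (ih x hx)
      rw [Function.update_self, Function.update_idem] at h3
      have e : rot (2 * Real.pi / k * (n + 1 : ℕ)) (x j) =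
          rot (2 * Real.pi / k) (rot (2 * Real.pi / k * n) (x j)) := by
        show _ = (rot _ * rot _) (x j)
        rw [rot_mul]
        congr 2
        push_cast
        ring
      rwa [e]
  rintro x hx g ⟨_, ⟨n, rfl⟩, rfl⟩
  have hkz : (0 : ℤ) < k := by exact_mod_cast hk
  have h3 : ((n % k).toNat : ℤ) = n % k := Int.toNat_of_nonneg (Int.emod_nonneg _ hkz.ne')
  have h5 : (((n % k).toNat : ℕ) : ℝ) = n - k * ((n / k : ℤ) : ℝ) := by
    have h6 : (((n % k).toNat : ℕ) : ℝ) = (((n % k).toNat : ℤ) : ℝ) := by push_cast; rfl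
    rw [h6, h3]
    have h7 : n % k = n - k * (n / k) := by
      have := Int.mul_ediv_add_emod n k
      omega
    rw [h7]
    push_cast
    ring
  have e : rot (2 * Real.pi / k * n) = rot (2 * Real.pi / k * ((n % k).toNat : ℕ)) := by
    rw [← rot_period (2 * Real.pi / k * ((n % k).toNat : ℕ)) (n / k), h5]
    congr 1
    field_simp
    ring
  show Function.update x j (rot (2 * Real.pi / k * n) (x j)) ∈ K
  rw [e]
  exact h2 _ x hx

theorem cover_rot {r : ℕ} {k N : Fin r → ℕ} (hk : ∀ j, 0 < k j) (hN : ∀ j, 0 < N j)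
    (h : ∀ j, (1 : ℝ) / k j + 1 / N j < 1 / 2) {K : Set (Fin r → ℂ)} (hK : Convex ℝ K)
    (hKc : IsCompact K) (hKi : (interior K).Nonempty)
    (hinv : ∀ j, ∀ x ∈ K,
      Function.update x j (Complex.exp (2 * Real.pi * Complex.I / k j) * x j) ∈ K) :
    ∃ m ≤ r, ∃ T : Finset (Fin r → ℂ),
      T.card ≤ ∑ S ∈ Finset.powersetCard m Finset.univ, ∏ j ∈ S, N j ∧
      K ⊆ ⋃ t ∈ T, (fun x => t + x) '' interior K := by
  have := cover_maps (V := fun _ : Fin r => ℂ) (G := fun j => maps (RG (k j)))
    (N := N) (fun j => wr (N j))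
    (fun j => ⟨Finset.univ.image (wr (N j)), by simp, RG_good (hk j) (hN j) (h j)⟩) hK hKc hKi
    (fun x hx j g hg => RG_inv (hk j) (hinv j) x hx g hg)
  rwa [Fintype.card_fin] at this

/-! ### Signed permutations -/

/-- the distribution of the coordinates to the blocks -/
noncomputable def blk {n k : ℕ} (c : Fin n → Fin k) :
    EuclideanSpace ℝ (Fin n) ≃L[ℝ] (∀ j : Fin k, EuclideanSpace ℝ {i // c i = j}) :=
  LinearEquiv.toContinuousLinearEquiv
  { toFun := fun x j => WithLp.toLp 2 fun i => x i.1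
    invFun := fun y => WithLp.toLp 2 fun i => y (c i) ⟨i, rfl⟩
    left_inv := fun x => by ext i; rfl
    right_inv := fun y => by
      funext j
      ext ⟨i, hi⟩
      subst hi
      rfl
    map_add' := fun x y => by
      funext j
      ext i
      rfl
    map_smul' := fun a x => by
      funext j
      ext i
      rfl }

lemma blk_apply {n k : ℕ} (c : Fin n → Fin k) (x : EuclideanSpace ℝ (Fin n)) (j : Fin k)
    (i : {i // c i = j}) : blk c x j i = x i.1 := rfl

lemma blk_symm_apply {n k : ℕ} (c : Fin n → Fin k) (y : ∀ j : Fin k, EuclideanSpace ℝ {i // c i = j})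
    (i : Fin n) : (blk c).symm y i = y (c i) ⟨i, rfl⟩ := rfl

theorem cover_perm {n k : ℕ} (c : Fin n → Fin k) (hc : Function.Surjective c)
    {K : Set (EuclideanSpace ℝ (Fin n))} (hK : Convex ℝ K) (hKc : IsCompact K)
    (hKi : (interior K).Nonempty)
    (hsign : ∀ x ∈ K, ∀ y : EuclideanSpace ℝ (Fin n), (∀ i, |y i| = |x i|) → y ∈ K)
    (hperm : ∀ σ : Equiv.Perm (Fin n), (∀ i, c (σ i) = c i) → ∀ x ∈ K,
      (WithLp.toLp 2 (fun i => x (σ i)) : EuclideanSpace ℝ (Fin n)) ∈ K) :
    ∃ m ≤ k, ∃ T : Finset (EuclideanSpace ℝ (Fin n)),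
      T.card ≤ ∑ S ∈ Finset.powersetCard m Finset.univ,
        ∏ j ∈ S, 2 ^ (Finset.univ.filter fun i => c i = j).card ∧
      K ⊆ ⋃ t ∈ T, (fun x => t + x) '' interior K := by
  classical
  have hne : ∀ j, Nonempty {i // c i = j} := fun j => by
    obtain ⟨i, hi⟩ := hc j
    exact ⟨⟨i, hi⟩⟩
  have hnt : ∀ j, Nontrivial (EuclideanSpace ℝ {i // c i = j}) := fun j => by
    have := hne j
    infer_instance
  choose d hd using fun j => exists_dict' (α := {i // c i = j})
  -- enumeration of the sign vectors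
  have hcard : ∀ j, Fintype.card ({i // c i = j} → Bool) =
      2 ^ (Finset.univ.filter fun i => c i = j).card := by
    intro j
    rw [Fintype.card_fun, Fintype.card_bool, Fintype.card_subtype]
  set e : ∀ j, Fin (2 ^ (Finset.univ.filter fun i => c i = j).card) ≃ ({i // c i = j} → Bool) :=
    fun j => ((Fintype.equivFin _).trans (finCongr (hcard j))).symm with he
  set L := blk c with hL
  have hK'i : interior (L '' K) = L '' interior K :=
    (L.toHomeomorph.image_interior K).symm
  obtain ⟨m, hm, T, hT1, hT2⟩ := cover_maps (V := fun j : Fin k => EuclideanSpace ℝ {i // c i = j})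
    (G := fun j => maps (SP {i // c i = j}))
    (N := fun j => 2 ^ (Finset.univ.filter fun i => c i = j).card)
    (fun j i => wp (d j) (e j i))
    (fun j => by
      refine ⟨Finset.univ.image fun σ => wp (d j) σ, ?_, ?_⟩
      · intro v hv
        obtain ⟨σ, _, rfl⟩ := Finset.mem_image.1 (Finset.mem_coe.1 hv)
        exact ⟨(e j).symm σ, by simp⟩
      · refine good_of_group SP_one SP_mul fun x hx => ?_
        obtain ⟨σ, ε, hε, hσ⟩ := sp_ill (hd j) hx
        exact ⟨wp (d j) σ, Finset.mem_image_of_mem _ (Finset.mem_univ σ), ε, hε, hσ⟩)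
    (K := L '' K) (hK.linear_image L.toLinearEquiv.toLinearMap) (hKc.image L.continuous)
    (by rw [hK'i]; exact hKi.image _)
    (by
      rintro _ ⟨x, hx, rfl⟩ j _ ⟨g, ⟨σ, s, hs, hg⟩, rfl⟩
      -- extension of the permutation
      set τ : Equiv.Perm (Fin n) := σ.ofSubtype with hτ
      have hτin : ∀ i : {i // c i = j}, τ i.1 = (σ i).1 := fun i => Equiv.Perm.ofSubtype_apply_coe σ i
      have hτout : ∀ i, c i ≠ j → τ i = i := fun i hi => Equiv.Perm.ofSubtype_apply_of_not_mem σ hi
      have hτc : ∀ i, c (τ i) = c i := by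
        intro i
        by_cases hi : c i = j
        · rw [hτin ⟨i, hi⟩, (σ ⟨i, hi⟩).2, hi]
        · rw [hτout i hi]
      have h1 := hperm τ hτc x hx
      have h2 := hsign _ h1 (L.symm (Function.update (L x) j (g (L x j)))) (by
        intro i
        rw [hL, blk_symm_apply, ← hL]
        show _ = |x (τ i)|
        by_cases hi : c i = j
        · subst hi
          rw [Function.update_self, hg, abs_mul]
          have h3 : |s ⟨i, rfl⟩| = 1 := by
            have h4 := hs ⟨i, rfl⟩
            rw [← abs_mul_self, abs_mul] at h4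
            have h5 := abs_nonneg (s ⟨i, rfl⟩)
            nlinarith
          rw [h3, one_mul, hL, blk_apply, ← hτin]
        · rw [Function.update_of_ne hi, hτout i hi, hL, blk_apply])
      exact ⟨_, h2, by simp⟩)
  rw [Fintype.card_fin] at hm
  refine ⟨m, hm, T.image L.symm, Finset.card_image_le.trans hT1, ?_⟩
  intro x hx
  obtain ⟨t, ht, z, hz, hzt⟩ := mem_iUnion₂.1 (hT2 (mem_image_of_mem L hx))
  rw [hK'i] at hz
  obtain ⟨y, hy, rfl⟩ := hz
  refine mem_iUnion₂.2 ⟨L.symm t, Finset.mem_image_of_mem _ ht, y, hy, ?_⟩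
  have hzt' : t + L y = L x := hzt
  show L.symm t + y = x
  apply L.injective
  rw [map_add, L.apply_symm_apply, hzt']

end Pool.Agent.U194.Block
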