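import Mathlib

set_option autoImplicit false

/-!
Orbit hulls of a set of contractions, and a uniform version of the illumination of orbit hulls.
-/

namespace Pool.Agent.U194.Block

open Set Metric Filter Topology

variable {V : Type*} [NormedAddCommGroup V] [NormedSpace ℝ V]

/-- the closed convex hull of the orbit -/
def P (G : Set (V → V)) (x : V) : Set V := closure (convexHull ℝ {y | ∃ g ∈ G, g x = y})

lemma P_closed (G : Set (V → V)) (x : V) : IsClosed (P G x) := isClosed_closure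

lemma P_convex (G : Set (V → V)) (x : V) : Convex ℝ (P G x) := (convex_convexHull ℝ _).closure

lemma P_subset {G : Set (V → V)} {x : V} {A : Set V} (hA : Convex ℝ A) (hAc : IsClosed A)
    (h : ∀ g ∈ G, g x ∈ A) : P G x ⊆ A := by
  refine closure_minimal (convexHull_min ?_ hA) hAc
  rintro y ⟨g, hg, rfl⟩
  exact h g hg

lemma mem_P {G : Set (V → V)} {g : V → V} (hg : g ∈ G) (x : V) : g x ∈ P G x :=
  subset_closure (subset_convexHull ℝ _ ⟨g, hg, rfl⟩)

lemma opNorm_of_ball {f : V →L[ℝ] ℝ} {r c : ℝ} (hr : 0 < r) (h : ∀ v : V, ‖v‖ ≤ r → f v ≤ c) :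
    ‖f‖ * r ≤ c := by
  have hc : 0 ≤ c := by simpa using h 0 (by simpa using hr.le)
  have key : ∀ v : V, f v ≤ c / r * ‖v‖ := by
    intro v
    rcases eq_or_ne v 0 with rfl | hv
    · simp
    · have hv' : 0 < ‖v‖ := norm_pos_iff.2 hv
      have h1 := h ((r / ‖v‖) • v) (by
        rw [norm_smul, Real.norm_eq_abs, abs_of_pos (by positivity), div_mul_cancel₀ _ hv'.ne'])
      rw [map_smul, smul_eq_mul] at h1
      have h2 : f v = (r / ‖v‖ * f v) * (‖v‖ / r) := by field_simp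
      rw [h2]
      calc (r / ‖v‖ * f v) * (‖v‖ / r) ≤ c * (‖v‖ / r) :=
            mul_le_mul_of_nonneg_right h1 (by positivity)
        _ = c / r * ‖v‖ := by ring
  have h2 : ‖f‖ ≤ c / r := by
    refine f.opNorm_le_bound (by positivity) fun v => ?_
    rw [Real.norm_eq_abs, abs_le]
    constructor
    · have := key (-v)
      rw [map_neg, norm_neg] at this
      linarith
    · exact key v
  calc ‖f‖ * r ≤ c / r * r := mul_le_mul_of_nonneg_right h2 hr.le
    _ = c := div_mul_cancel₀ _ hr.ne'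

/-- perturbation -/
lemma ball_sub {G : Set (V → V)} (hG : ∀ g ∈ G, ∀ x y, ‖g x - g y‖ ≤ ‖x - y‖) {x0 x y : V}
    {r δ : ℝ} (hδ : ‖x0 - x‖ ≤ δ) (hr : δ < r) (h : closedBall y r ⊆ P G x0) :
    closedBall y (r - δ) ⊆ P G x := by
  intro y' hy'
  by_contra hcon
  obtain ⟨f, u, h1, h2⟩ := geometric_hahn_banach_closed_point (P_convex G x) (P_closed G x) hcon
  have hδ0 : 0 ≤ δ := (norm_nonneg _).trans hδ
  have h3 : ∀ a ∈ P G x0, f a ≤ u + ‖f‖ * δ := by
    have : P G x0 ⊆ {a | f a ≤ u + ‖f‖ * δ} := by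
      refine P_subset ?_ ?_ ?_
      · exact convex_halfSpace_le f.toLinearMap.isLinear _
      · exact isClosed_le f.continuous continuous_const
      · intro g hg
        show f (g x0) ≤ _
        have h4 : f (g x0) = f (g x) + f (g x0 - g x) := by rw [← map_add]; congr 1; abel
        have h5 : f (g x0 - g x) ≤ ‖f‖ * δ :=
          (le_abs_self _).trans ((f.le_opNorm _).trans
            (mul_le_mul_of_nonneg_left ((hG g hg _ _).trans hδ) (norm_nonneg _)))
        have h6 := h1 _ (mem_P hg x)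
        linarith
    exact this
  have h4 : ∀ v : V, ‖v‖ ≤ r → f v ≤ u + ‖f‖ * δ - f y := by
    intro v hv
    have := h3 (y + v) (h (by simpa [mem_closedBall, dist_eq_norm] using hv))
    rw [map_add] at this
    linarith
  have h5 := opNorm_of_ball (by linarith) h4
  have h6 : f y' = f y + f (y' - y) := by rw [← map_add]; congr 1; abel
  have h7 : f (y' - y) ≤ ‖f‖ * (r - δ) := by
    refine (le_abs_self _).trans ((f.le_opNorm _).trans
      (mul_le_mul_of_nonneg_left ?_ (norm_nonneg _)))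
    rwa [mem_closedBall, dist_eq_norm] at hy'
  nlinarith

/-- The hypotheses on one factor. -/
structure Good (G : Set (V → V)) (D : Finset V) : Prop where
  lip : ∀ g ∈ G, ∀ x y, ‖g x - g y‖ ≤ ‖x - y‖
  self : ∀ x, x ∈ P G x
  zero : ∀ x, x ≠ 0 → 0 ∈ interior (P G x)
  ill : ∀ x, x ≠ 0 → ∃ w ∈ D, ∃ ε : ℝ, 0 < ε ∧ x + ε • w ∈ interior (P G x)

/-- A lower semicontinuous family of convex sets `Q x`, which contain `x`, and `0` in the interior
for `x ≠ 0`, such that for `x ≠ 0` one can go from `x` to the interior of `Q x` in one of the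
directions of `D`. -/
structure Rule (Q : V → Set V) (D : Finset V) : Prop where
  conv : ∀ x, Convex ℝ (Q x)
  self : ∀ x, x ∈ Q x
  zero : ∀ x, x ≠ 0 → 0 ∈ interior (Q x)
  lsc : ∀ x, x ≠ 0 → ∀ y ∈ interior (Q x), {p : V × V | p.2 ∈ Q p.1} ∈ 𝓝 (x, y)
  ill : ∀ x, x ≠ 0 → ∃ w ∈ D, ∃ ε : ℝ, 0 < ε ∧ x + ε • w ∈ interior (Q x)

lemma Good.rule {G : Set (V → V)} {D : Finset V} (h : Good G D) : Rule (P G) D where
  conv := P_convex G
  self := h.self
  zero := h.zero
  ill := h.ill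
  lsc := by
    intro x _ y hy
    obtain ⟨r, hr, hball⟩ := Metric.isOpen_iff.1 isOpen_interior y hy
    have hball2 : closedBall y (r / 2) ⊆ P G x :=
      ((closedBall_subset_ball (by linarith)).trans hball).trans interior_subset
    have h1 : ball x (r / 4) ×ˢ ball y (r / 4) ∈ 𝓝 (x, y) :=
      prod_mem_nhds (ball_mem_nhds _ (by positivity)) (ball_mem_nhds _ (by positivity))
    filter_upwards [h1] with p hp
    obtain ⟨hp1, hp2⟩ := hp
    have h2 : ‖x - p.1‖ ≤ r / 4 := by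
      rw [mem_ball, dist_eq_norm, ← norm_neg, neg_sub] at hp1
      exact hp1.le
    refine ball_sub h.lip h2 (r := r / 2) (y := y) (by linarith) hball2 ?_
    rw [mem_closedBall]
    rw [mem_ball] at hp2
    linarith

/-- The uniform version. -/
lemma Rule.step [ProperSpace V] {Q : V → Set V} {D : Finset V} (h : Rule Q D) {η R : ℝ}
    (hη : 0 < η) : ∃ κ : ℝ, 0 < κ ∧ ∃ s0 : ℝ, 0 < s0 ∧ κ * s0 < 1 ∧
      ∀ x : V, η ≤ ‖x‖ → ‖x‖ ≤ R → ∃ w ∈ D, ∀ s : ℝ, 0 ≤ s → s ≤ s0 →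
        ∃ p ∈ Q x, x + s • w = (1 - κ * s) • p := by
  have hK : IsCompact {x : V | η ≤ ‖x‖ ∧ ‖x‖ ≤ R} := by
    refine (isCompact_closedBall (0 : V) R).of_isClosed_subset ?_ ?_
    · exact (isClosed_le continuous_const continuous_norm).inter
        (isClosed_le continuous_norm continuous_const)
    · rintro x ⟨-, hx⟩
      simpa [mem_closedBall, dist_eq_norm] using hx
  have main : ∃ κ : ℝ, 0 < κ ∧ ∃ s0 : ℝ, 0 < s0 ∧ κ * s0 < 1 ∧
      ∀ x ∈ {x : V | η ≤ ‖x‖ ∧ ‖x‖ ≤ R}, x ≠ 0 → ∃ w ∈ D, ∀ s : ℝ, 0 ≤ s → s ≤ s0 →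
        ∃ p ∈ Q x, x + s • w = (1 - κ * s) • p := by
    refine hK.induction_on (p := fun A => ∃ κ : ℝ, 0 < κ ∧ ∃ s0 : ℝ, 0 < s0 ∧ κ * s0 < 1 ∧
      ∀ x ∈ A, x ≠ 0 → ∃ w ∈ D, ∀ s : ℝ, 0 ≤ s → s ≤ s0 →
        ∃ p ∈ Q x, x + s • w = (1 - κ * s) • p) ?_ ?_ ?_ ?_
    · exact ⟨1, one_pos, 1 / 2, by norm_num, by norm_num, fun x hx => hx.elim⟩
    · rintro A B hAB ⟨κ, hκ, s0, hs0, h1, h2⟩
      exact ⟨κ, hκ, s0, hs0, h1, fun x hx => h2 x (hAB hx)⟩
    · have hmono : ∀ {κ κ' s : ℝ} {x y : V}, 0 < κ' → κ' ≤ κ → 0 ≤ s → κ * s < 1 → x ≠ 0 →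
          (∃ p ∈ Q x, y = (1 - κ * s) • p) → ∃ p ∈ Q x, y = (1 - κ' * s) • p := by
        rintro κ κ' s x y hκ' hκκ hs hks hx ⟨p, hp, rfl⟩
        have h1 : κ' * s ≤ κ * s := mul_le_mul_of_nonneg_right hκκ hs
        have h2 : 0 < 1 - κ' * s := by linarith
        refine ⟨((1 - κ * s) / (1 - κ' * s)) • p, ?_, ?_⟩
        · have h0 : (0 : V) ∈ Q x := interior_subset (h.zero x hx)
          have h3 := (h.conv x) h0 hp (a := 1 - (1 - κ * s) / (1 - κ' * s))
            (b := (1 - κ * s) / (1 - κ' * s))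
            (by rw [sub_nonneg, div_le_one h2]; linarith)
            (div_nonneg (by linarith) h2.le) (by ring)
          rwa [smul_zero, zero_add] at h3
        · rw [smul_smul, mul_div_cancel₀ _ h2.ne']
      rintro A B ⟨κ, hκ, s0, hs0, h1, h2⟩ ⟨κ', hκ', s0', hs0', h1', h2'⟩
      have hm : 0 < min κ κ' := lt_min hκ hκ'
      have hm' : 0 < min s0 s0' := lt_min hs0 hs0'
      refine ⟨min κ κ', hm, min s0 s0', hm', ?_, ?_⟩
      · calc min κ κ' * min s0 s0' ≤ κ * s0 :=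
            mul_le_mul (min_le_left _ _) (min_le_left _ _) hm'.le hκ.le
          _ < 1 := h1
      · rintro x (hx | hx) hx0
        · obtain ⟨w, hw, hw'⟩ := h2 x hx hx0
          refine ⟨w, hw, fun s hs hs' => ?_⟩
          have hs'' : s ≤ s0 := hs'.trans (min_le_left _ _)
          refine hmono (κ := κ) hm (min_le_left _ _) hs ?_ hx0 (hw' s hs hs'')
          exact (mul_le_mul_of_nonneg_left hs'' hκ.le).trans_lt h1
        · obtain ⟨w, hw, hw'⟩ := h2' x hx hx0
          refine ⟨w, hw, fun s hs hs' => ?_⟩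
          have hs'' : s ≤ s0' := hs'.trans (min_le_right _ _)
          refine hmono (κ := κ') hm (min_le_right _ _) hs ?_ hx0 (hw' s hs hs'')
          exact (mul_le_mul_of_nonneg_left hs'' hκ'.le).trans_lt h1'
    · rintro x0 ⟨hx0, -⟩
      have hx0' : x0 ≠ 0 := by
        rintro rfl
        rw [norm_zero] at hx0
        linarith
      obtain ⟨w, hw, ε, hε, hz⟩ := h.ill x0 hx0'
      -- choice of `κ`
      obtain ⟨κ, hκ, hκ1, hκ2⟩ : ∃ κ : ℝ, 0 < κ ∧ κ * ε < 1 / 2 ∧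
          (1 - κ * ε)⁻¹ • (x0 + ε • w) ∈ interior (Q x0) := by
        have t1 : Tendsto (fun κ : ℝ => κ * ε) (𝓝 0) (𝓝 (0 * ε)) :=
          (continuous_id.mul continuous_const).tendsto 0
        rw [zero_mul] at t1
        have t2 : Tendsto (fun κ : ℝ => (1 - κ * ε)⁻¹ • (x0 + ε • w)) (𝓝 0)
            (𝓝 ((1 - 0 : ℝ)⁻¹ • (x0 + ε • w))) :=
          ((tendsto_const_nhds.sub t1).inv₀ (by norm_num)).smul_const _
        rw [sub_zero, inv_one, one_smul] at t2
        have e1 : ∀ᶠ κ : ℝ in 𝓝[>] 0, κ * ε < 1 / 2 :=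
          (t1.eventually (gt_mem_nhds (by norm_num))).filter_mono nhdsWithin_le_nhds
        have e2 : ∀ᶠ κ : ℝ in 𝓝[>] 0, (1 - κ * ε)⁻¹ • (x0 + ε • w) ∈ interior (Q x0) :=
          (t2.eventually (isOpen_interior.mem_nhds hz)).filter_mono nhdsWithin_le_nhds
        obtain ⟨κ, ⟨h1, h2⟩, h3⟩ := ((e1.and e2).and self_mem_nhdsWithin).exists
        exact ⟨κ, h3, h1, h2⟩
      have hpos : 0 < 1 - κ * ε := by linarith
      have hnb : {x : V | (1 - κ * ε)⁻¹ • (x + ε • w) ∈ Q x} ∈ 𝓝 x0 := by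
        have hc : Continuous fun x : V => (x, (1 - κ * ε)⁻¹ • (x + ε • w)) := by fun_prop
        exact hc.continuousAt.preimage_mem_nhds (h.lsc x0 hx0' _ hκ2)
      refine ⟨{x : V | (1 - κ * ε)⁻¹ • (x + ε • w) ∈ Q x}, mem_nhdsWithin_of_mem_nhds hnb,
        κ, hκ, ε, hε, by linarith, ?_⟩
      intro x hy _
      refine ⟨w, hw, fun s hs hsε => ?_⟩
      replace hy : (1 - κ * ε)⁻¹ • (x + ε • w) ∈ Q x := hy
      set y : V := (1 - κ * ε)⁻¹ • (x + ε • w) with hydef
      have hyx : x + ε • w = (1 - κ * ε) • y := by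
        rw [hydef, smul_smul, mul_inv_cancel₀ hpos.ne', one_smul]
      have hks : κ * s ≤ κ * ε := mul_le_mul_of_nonneg_left hsε hκ.le
      have hps : 0 < 1 - κ * s := by linarith
      have hse : s / ε ≤ 1 := (div_le_one hε).2 hsε
      have hse0 : 0 ≤ s / ε := by positivity
      refine ⟨((1 - s / ε) / (1 - κ * s)) • x + (s / ε * (1 - κ * ε) / (1 - κ * s)) • y, ?_, ?_⟩
      · refine h.conv x (h.self x) hy (div_nonneg (by linarith) hps.le)
          (div_nonneg (mul_nonneg hse0 hpos.le) hps.le) ?_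
        rw [← add_div, div_eq_one_iff_eq hps.ne']
        field_simp
        ring
      · rw [smul_add, smul_smul, smul_smul, mul_div_cancel₀ _ hps.ne', mul_div_cancel₀ _ hps.ne',
          mul_smul, ← hyx, smul_add, smul_smul, div_mul_cancel₀ _ hε.ne', ← add_assoc, ← add_smul,
          sub_add_cancel, one_smul]
  obtain ⟨κ, hκ, s0, hs0, h1, h2⟩ := main
  refine ⟨κ, hκ, s0, hs0, h1, fun x hx hxR => h2 x ⟨hx, hxR⟩ ?_⟩
  rintro rfl
  rw [norm_zero] at hx
  linarith

end Pool.Agent.U194.Block
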